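import Mathlib

/-!
The infinite Ramsey theorem for finite subsets of `ℕ`, and its consequence that every colouring
of finite families of natural numbers becomes invariant under order isomorphism after passing to
a subsequence.
-/

namespace Pool.Agent.Helper18.EH

theorem ramsey {κ : Type*} [Finite κ] (L : ℕ) : ∀ (F : Finset ℕ → κ) (A : Set ℕ), A.Infinite →
    ∃ B ⊆ A, B.Infinite ∧ ∃ c, ∀ s : Finset ℕ, (s : Set ℕ) ⊆ B → s.card = L → F s = c := by
  induction L with
  | zero =>
    intro F A hA
    exact ⟨A, subset_rfl, hA, F ∅, fun s _ hs => by rw [Finset.card_eq_zero.1 hs]⟩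
  | succ L ih =>
    intro F A hA
    have hstep : ∀ X : {X : Set ℕ // X.Infinite}, ∃ (p : ℕ × {X : Set ℕ // X.Infinite} × κ),
        p.1 ∈ X.1 ∧ (∀ u ∈ p.2.1.1, u ∈ X.1 ∧ p.1 < u) ∧
          ∀ s : Finset ℕ, (s : Set ℕ) ⊆ p.2.1.1 → s.card = L → F (insert p.1 s) = p.2.2 := by
      rintro ⟨X, hX⟩
      obtain ⟨a, ha⟩ := hX.nonempty
      have hX' : (X ∩ Set.Ioi a).Infinite := by
        have : X ∩ Set.Ioi a = X \ Set.Iic a := by
          ext u; simp
        rw [this]
        exact hX.sdiff (Set.finite_Iic a)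
      obtain ⟨B, hB, hBi, c, hc⟩ := ih (fun s => F (insert a s)) _ hX'
      exact ⟨(a, ⟨B, hBi⟩, c), ha, fun u hu => ⟨(hB hu).1, (hB hu).2⟩, hc⟩
    choose st h1 h2 h3 using hstep
    let X : ℕ → {X : Set ℕ // X.Infinite} := fun i => Nat.rec ⟨A, hA⟩ (fun _ Y => (st Y).2.1) i
    have hX0 : X 0 = ⟨A, hA⟩ := rfl
    have hXs : ∀ i, X (i + 1) = (st (X i)).2.1 := fun i => rfl
    have hsub : ∀ i, (X (i + 1)).1 ⊆ (X i).1 := fun i u hu => (h2 (X i) u hu).1
    have hanti : ∀ i j, i ≤ j → (X j).1 ⊆ (X i).1 := by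
      intro i j hij
      induction hij with
      | refl => exact subset_rfl
      | step _ ih' => exact (hsub _).trans ih'
    let a : ℕ → ℕ := fun i => (st (X i)).1
    have haX : ∀ i, a i ∈ (X i).1 := fun i => h1 (X i)
    have hmem : ∀ i j, i < j → a j ∈ (X (i + 1)).1 := fun i j hij => hanti _ _ hij (haX j)
    have hlt : ∀ i j, i < j → a i < a j := fun i j hij => (h2 (X i) _ (hmem i j hij)).2
    have hmono : StrictMono a := fun i j hij => hlt i j hij
    let col : ℕ → κ := fun i => (st (X i)).2.2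
    obtain ⟨c, hc⟩ := Finite.exists_infinite_fiber col
    have hc' : (col ⁻¹' {c}).Infinite := Set.infinite_coe_iff.1 hc
    refine ⟨a '' (col ⁻¹' {c}), ?_, hc'.image hmono.injective.injOn, c, ?_⟩
    · rintro _ ⟨i, _, rfl⟩
      exact hanti 0 i (Nat.zero_le _) (haX i)
    · intro s hs hcard
      have hne : s.Nonempty := Finset.card_pos.1 (by omega)
      obtain ⟨i, hi, him⟩ := hs (s.min'_mem hne)
      have hins : s = insert (a i) (s.erase (a i)) := by
        rw [Finset.insert_erase]; rw [him]; exact s.min'_mem hne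
      rw [hins, ← (show col i = c from hi)]
      apply h3 (X i)
      · intro u hu
        have hu' := Finset.mem_erase.1 (Finset.mem_coe.1 hu)
        obtain ⟨j, _, hj⟩ := hs (Finset.mem_coe.2 hu'.2)
        have hle : a i ≤ u := by rw [him]; exact s.min'_le u hu'.2
        have hlt' : a i < a j := by rw [hj]; exact lt_of_le_of_ne hle (Ne.symm hu'.1)
        rw [← hj]
        exact hmem i j (hmono.lt_iff_lt.1 hlt')
      · rw [Finset.card_erase_of_mem (by rw [him]; exact s.min'_mem hne), hcard]
        rfl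

theorem ramsey_le {κ : Type*} [Finite κ] (N : ℕ) (F : Finset ℕ → κ) :
    ∃ B : Set ℕ, B.Infinite ∧ ∀ s t : Finset ℕ, (s : Set ℕ) ⊆ B → (t : Set ℕ) ⊆ B →
      s.card = t.card → s.card < N → F s = F t := by
  induction N with
  | zero => exact ⟨Set.univ, Set.infinite_univ, fun s t _ _ _ h => absurd h (by omega)⟩
  | succ N ih =>
    obtain ⟨B, hB, h⟩ := ih
    obtain ⟨B', hB', hi, c, hc⟩ := ramsey N F B hB
    refine ⟨B', hi, fun s t hs ht hst hN => ?_⟩
    rcases Nat.lt_succ_iff_lt_or_eq.1 hN with h' | h'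
    · exact h s t (hs.trans hB') (ht.trans hB') hst h'
    · rw [hc s hs h', hc t ht (hst ▸ h')]

/-- Two families of natural numbers are order equivalent. -/
def OrdEq {D : Type*} (e e' : D → ℕ) : Prop := ∀ a b, e a < e b ↔ e' a < e' b

theorem card_image_eq_of_iff {D : Type*} [DecidableEq D] (T : Finset D) (e e' : D → ℕ)
    (h : ∀ a b, e a = e b ↔ e' a = e' b) : (T.image e).card = (T.image e').card := by
  classical
  let f : ℕ → ℕ := fun v => if hv : ∃ a, e a = v then e' hv.choose else 0
  have hf : ∀ a, f (e a) = e' a := by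
    intro a
    have hv : ∃ b, e b = e a := ⟨a, rfl⟩
    simp only [f, dif_pos hv]
    exact (h _ _).1 hv.choose_spec
  have himg : T.image e' = (T.image e).image f := by
    rw [Finset.image_image]
    apply Finset.image_congr
    intro a _
    exact (hf a).symm
  rw [himg]
  refine (Finset.card_image_of_injOn (s := T.image e) ?_).symm
  intro u hu v hv huv
  obtain ⟨a, _, rfl⟩ := Finset.mem_image.1 (Finset.mem_coe.1 hu)
  obtain ⟨b, _, rfl⟩ := Finset.mem_image.1 (Finset.mem_coe.1 hv)
  rw [hf, hf] at huv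
  exact (h _ _).2 huv

theorem OrdEq.eq_iff {D : Type*} {e e' : D → ℕ} (h : OrdEq e e') (a b : D) :
    e a = e b ↔ e' a = e' b := by
  have h1 := h a b
  have h2 := h b a
  omega

/-- Every colouring of finite families of natural numbers becomes invariant under order
isomorphism on a suitable infinite set of natural numbers. -/
theorem canon {D : Type*} [Fintype D] (c : (D → ℕ) → Bool) :
    ∃ g : ℕ → ℕ, StrictMono g ∧ ∀ e e' : D → ℕ, OrdEq e e' → c (g ∘ e) = c (g ∘ e') := by
  classical
  let N := Fintype.card D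
  let F : Finset ℕ → ((D → Fin (N + 1)) → Bool) :=
    fun s α => c (fun d => Nat.nth (· ∈ s) (α d))
  obtain ⟨B, hB, hF⟩ := ramsey_le (N + 1) F
  have hBs : {x | x ∈ B}.Infinite := hB
  refine ⟨Nat.nth (· ∈ B), Nat.nth_strictMono hBs, fun e e' hee => ?_⟩
  set g := Nat.nth (· ∈ B) with hg
  have hgm : StrictMono g := Nat.nth_strictMono hBs
  have hgB : ∀ i, g i ∈ B := fun i => Nat.nth_mem_of_infinite hBs i
  have key : ∀ e : D → ℕ, ∀ α : D → Fin (N + 1),
      (∀ d, (α d : ℕ) = Nat.count (· ∈ Finset.univ.image (g ∘ e)) (g (e d))) →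
      c (g ∘ e) = F (Finset.univ.image (g ∘ e)) α := by
    intro e α hα
    simp only [F]
    congr 1
    funext d
    rw [hα d]
    exact (Nat.nth_count (p := (· ∈ Finset.univ.image (g ∘ e)))
      (Finset.mem_image_of_mem _ (Finset.mem_univ d))).symm
  have hcount : ∀ e : D → ℕ, ∀ d, Nat.count (· ∈ Finset.univ.image (g ∘ e)) (g (e d)) =
      ((Finset.univ.filter (fun a => e a < e d)).image e).card := by
    intro e d
    rw [Nat.count_eq_card_filter_range]
    rw [← Finset.card_image_of_injective (Finset.image e _) hgm.injective, Finset.image_image]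
    congr 1
    ext u
    simp only [Finset.mem_filter, Finset.mem_range, Finset.mem_image, Finset.mem_univ, true_and,
      Function.comp]
    constructor
    · rintro ⟨h1, a, rfl⟩
      exact ⟨a, hgm.lt_iff_lt.1 h1, rfl⟩
    · rintro ⟨a, h1, rfl⟩
      exact ⟨hgm h1, a, rfl⟩
  have hlt : ∀ d, Nat.count (· ∈ Finset.univ.image (g ∘ e)) (g (e d)) < N + 1 := by
    intro d
    rw [hcount]
    refine Nat.lt_succ_of_le (Finset.card_image_le.trans (Finset.card_le_univ _))
  let α : D → Fin (N + 1) := fun d => ⟨_, hlt d⟩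
  rw [key e α (fun d => rfl), key e' α (fun d => ?_)]
  · apply congrFun
    apply hF
    · intro u hu
      obtain ⟨a, _, rfl⟩ := Finset.mem_image.1 (Finset.mem_coe.1 hu)
      exact hgB _
    · intro u hu
      obtain ⟨a, _, rfl⟩ := Finset.mem_image.1 (Finset.mem_coe.1 hu)
      exact hgB _
    · apply card_image_eq_of_iff
      intro a b
      simp only [Function.comp, hgm.injective.eq_iff]
      exact hee.eq_iff a b
    · exact Nat.lt_succ_of_le (Finset.card_image_le.trans (Finset.card_le_univ _))
  · show Nat.count _ _ = _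
    rw [hcount, hcount]
    have : (Finset.univ.filter (fun a => e a < e d)) = Finset.univ.filter (fun a => e' a < e' d) := by
      ext a
      simp only [Finset.mem_filter, Finset.mem_univ, true_and]
      exact hee a d
    rw [this]
    exact card_image_eq_of_iff _ _ _ (fun a b => hee.eq_iff a b)

end Pool.Agent.Helper18.EH
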