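import Mathlib

/-!
Ordinal partition relation and the lexicographic representation of `ω ^ n`.
-/

namespace Pool.Agent.Helper18.EH

open Ordinal

/-- The partition relation `α → (β, m)²`: for every colouring of the pairs of elements of `α`
with two colours there is a set of order type `β` all of whose pairs have colour `false`, or a
set of `m` elements all of whose pairs have colour `true`. -/
def Arrow (α β : Ordinal.{0}) (m : ℕ) : Prop :=
  ∀ c : α.ToType → α.ToType → Bool, (∀ x y, c x y = c y x) →
    (∃ H : Set α.ToType, Ordinal.type (fun x y : H => x < y) = β ∧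
      ∀ x ∈ H, ∀ y ∈ H, x ≠ y → c x y = false) ∨
    (∃ H : Finset α.ToType, H.card = m ∧ ∀ x ∈ H, ∀ y ∈ H, x ≠ y → c x y = true)

theorem Arrow.mono {α β : Ordinal.{0}} {m m' : ℕ} (h : Arrow α β m) (hm : m' ≤ m) :
    Arrow α β m' := by
  intro c hc
  rcases h c hc with h | ⟨H, hH, hc'⟩
  · exact Or.inl h
  · obtain ⟨K, hK, hK'⟩ := Finset.exists_subset_card_eq (hH ▸ hm : m' ≤ H.card)
    exact Or.inr ⟨K, hK', fun x hx y hy hxy => hc' x (hK hx) y (hK hy) hxy⟩

/-- The first coordinate and the rest, as a relation isomorphism. -/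
def consRelIso (k : ℕ) :
    (fun x y : Lex (Fin (k + 1) → ℕ) => x < y) ≃r
      Prod.Lex (fun x y : ℕ => x < y) (fun x y : Lex (Fin k → ℕ) => x < y) where
  toFun x := (ofLex x 0, toLex (fun i => ofLex x i.succ))
  invFun p := toLex (Fin.cons (α := fun _ => ℕ) p.1 (ofLex p.2))
  left_inv x := by
    apply ofLex.injective
    funext i
    refine Fin.cases ?_ (fun j => ?_) i <;> simp
  right_inv p := rfl
  map_rel_iff' := by
    intro x y
    constructor
    · intro h
      rcases (Prod.lex_def.1 h) with h | ⟨h1, h2⟩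
      · exact ⟨0, fun j hj => absurd hj (by simp), h⟩
      · obtain ⟨i, hi, hi'⟩ := h2
        refine ⟨i.succ, fun j hj => ?_, hi'⟩
        revert hj
        refine Fin.cases (fun _ => h1) (fun j hj => ?_) j
        exact hi j (Fin.succ_lt_succ_iff.1 hj)
    · rintro ⟨i, hi, hi'⟩
      revert hi hi'
      refine Fin.cases (fun _ h => ?_) (fun i hi hi' => ?_) i
      · exact Prod.Lex.left _ _ h
      · refine Prod.lex_def.2 (Or.inr ⟨hi 0 (Fin.succ_pos i), i, fun j hj => ?_, hi'⟩)
        exact hi j.succ (Fin.succ_lt_succ_iff.2 hj)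

theorem type_lex (k : ℕ) :
    Ordinal.type (fun x y : Lex (Fin k → ℕ) => x < y) = (ω : Ordinal.{0}) ^ k := by
  induction k with
  | zero =>
    have : Unique (Lex (Fin 0 → ℕ)) := inferInstanceAs (Unique (Fin 0 → ℕ))
    rw [pow_zero]
    exact Ordinal.type_eq_one_of_unique _
  | succ k ih =>
    rw [(consRelIso k).ordinalType_congr, Ordinal.type_prod_lex, ih, pow_succ]
    rw [Ordinal.type_nat_lt]

/-- `ω ^ n` as the lexicographic order on `n`-tuples of natural numbers. -/
noncomputable def lexIso (n : ℕ) : ((ω : Ordinal.{0}) ^ n).ToType ≃o Lex (Fin n → ℕ) :=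
  OrderIso.ofRelIsoLT (Classical.choice (Ordinal.type_eq.1
    ((Ordinal.type_toType _).trans (type_lex n).symm)))

end Pool.Agent.Helper18.EH
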