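import Pool.Agent.Helper18.EH.Q4

/-!
The negative relation `ω ^ (r ℓ) ↛ (ω ^ (r + 1), 2 ^ (ℓ - 1) + 1)²` for `r ≥ 4`.
-/

namespace Pool.Agent.Helper18.EH

open Ordinal

/-- The pattern `XXYXYXYYXY` on `[s1, n)` with blocks starting at `s1, s2, s3, s4, s5`. -/
def L5 (n : ℕ) (x y : ℕ → ℕ) (s1 s2 s3 s4 s5 : ℕ) : Prop :=
  Q4 x y s1 s2 s3 s4 s5 ∧ s5 < n ∧ y (s5 - 1) < x s5 ∧ x (n - 1) < y s5

/-- The relation used for `k ≥ 5`. -/
def R5 (r n : ℕ) (x y : ℕ → ℕ) : Prop :=
  ∃ s1, (∀ j < s1, x j = y j) ∧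
    ((¬ r ∣ (n - s1) ∧ ∃ s2 s3 s4, Q4 x y s1 s2 s3 s4 n ∧ n - s3 ≤ r * ((n - s1 - 1) / r)) ∨
     (r ∣ (n - s1) ∧ ∃ s2 s3 s4 s5, L5 n x y s1 s2 s3 s4 s5 ∧ n - s5 ≤ r * ((n - s1 - 1) / r)))

/-- The relation with a given position of the first difference. -/
def R5' (r n i : ℕ) (x y : ℕ → ℕ) : Prop :=
  (¬ r ∣ (n - i) ∧ ∃ s2 s3 s4, Q4 x y i s2 s3 s4 n ∧ n - s3 ≤ r * ((n - i - 1) / r)) ∨
  (r ∣ (n - i) ∧ ∃ s2 s3 s4 s5, L5 n x y i s2 s3 s4 s5 ∧ n - s5 ≤ r * ((n - i - 1) / r))

theorem Q4.first {n : ℕ} {x y : ℕ → ℕ} {s1 s2 s3 s4 e : ℕ} (hx : Inc n x) (he : e ≤ n)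
    (h : Q4 x y s1 s2 s3 s4 e) : s1 < n ∧ x s1 < y s1 := by
  obtain ⟨h1, h2, h3, h4, a1, a2, a3, a4, a5⟩ := h
  have := hx.le (show s1 ≤ s3 - 1 by omega) (by omega)
  exact ⟨by omega, by omega⟩

theorem R5.orient {r n i : ℕ} {x y : ℕ → ℕ} (hx : Inc n x) (hy : Inc n y)
    (hi : ∀ j < i, x j = y j) (hlt : x i < y i) (h : R5 r n x y ∨ R5 r n y x) :
    R5' r n i x y := by
  have key : ∀ (x y : ℕ → ℕ), Inc n x → ∀ s1 : ℕ, (∀ j < s1, x j = y j) →
      ((¬ r ∣ (n - s1) ∧ ∃ s2 s3 s4, Q4 x y s1 s2 s3 s4 n ∧ n - s3 ≤ r * ((n - s1 - 1) / r)) ∨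
     (r ∣ (n - s1) ∧ ∃ s2 s3 s4 s5, L5 n x y s1 s2 s3 s4 s5 ∧
        n - s5 ≤ r * ((n - s1 - 1) / r))) → x s1 < y s1 := by
    rintro x y hx s1 _ (⟨_, s2, s3, s4, h, _⟩ | ⟨_, s2, s3, s4, s5, h, _⟩)
    · exact (h.first hx le_rfl).2
    · exact (h.1.first hx h.2.1.le).2
  rcases h with ⟨s1, h1, h2⟩ | ⟨s1, h1, h2⟩
  · have := key x y hx s1 h1 h2
    have : s1 = i := by
      rcases lt_trichotomy s1 i with h | h | h
      · have := hi s1 h; omega
      · exact h
      · have := h1 i h; omega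
    subst this
    exact h2
  · exfalso
    have := key y x hy s1 h1 h2
    rcases lt_trichotomy s1 i with h | h | h
    · have := hi s1 h; omega
    · subst h; omega
    · have := h1 i h; omega

/-- The relation for positions in a block of `r` levels ending at position `β`. -/
def W5 (r n β i : ℕ) (x y : ℕ → ℕ) : Prop :=
  (i + r ≠ β ∧ ∃ s2 s3 s4, Q4 x y i s2 s3 s4 n ∧ β ≤ s3) ∨
  (i + r = β ∧ ∃ s2 s3 s4 s5, L5 n x y i s2 s3 s4 s5 ∧ β ≤ s5)

theorem R5'.toW {r n i β t : ℕ} {x y : ℕ → ℕ} (hr : 0 < r) (hβ : β + r * t = n)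
    (h1 : β - r ≤ i) (h2 : i < β) (h : R5' r n i x y) : W5 r n β i x y := by
  have hdiv : (n - i - 1) / r = t := by
    rw [Nat.div_eq_iff hr]
    have : r * t = t * r := mul_comm _ _
    constructor <;> omega
  rw [R5', hdiv] at h
  rcases h with ⟨h, s2, s3, s4, hQ, hs⟩ | ⟨h, s2, s3, s4, s5, hQ, hs⟩
  · left
    refine ⟨fun hc => h ?_, s2, s3, s4, hQ, ?_⟩
    · refine ⟨t + 1, ?_⟩
      rw [mul_add]; omega
    · obtain ⟨_, _, _, _, _⟩ := hQ
      omega
  · right
    refine ⟨?_, s2, s3, s4, s5, hQ, ?_⟩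
    · obtain ⟨m, hm⟩ := h
      have h3 : r * t < r * m := by omega
      have h4 : t < m := Nat.lt_of_mul_lt_mul_left h3
      have h5 : r * (t + 1) ≤ r * m := Nat.mul_le_mul_left r h4
      rw [mul_add] at h5
      omega
    · have := hQ.2.1
      omega

theorem L5.delay {n : ℕ} {x y : ℕ → ℕ} {s1 s2 s3 s4 s5 : ℕ} (hx : Inc n x) (hy : Inc n y)
    (h : L5 n x y s1 s2 s3 s4 s5) {v : ℕ} (hv : s1 ≤ v) (hv' : v < n) :
    x v < y v := by
  obtain ⟨h1, h2, h3, h4⟩ := h
  rcases Nat.lt_or_ge (v + 1) s5 with g | g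
  · have := h1.delay hx hy h2.le hv g
    have := hx v (v + 1) (by omega) (by omega)
    omega
  · obtain ⟨c1, c2, c3, c4, _, _, _, _, c5⟩ := h1
    rcases Nat.lt_or_ge v s5 with g' | g'
    · have := hx.le (show v ≤ s5 - 1 by omega) (by omega)
      have := hy.le (show s3 ≤ v by omega) (by omega)
      omega
    · have := hx.le (show v ≤ n - 1 by omega) (by omega)
      have := hy.le g' (by omega)
      omega

theorem L5.flat {n : ℕ} {x y z : ℕ → ℕ} {i s2 s3 s4 s5 t2 t3 t4 t5 u2 u3 u4 u5 : ℕ}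
    (hx : Inc n x) (hy : Inc n y) (hz : Inc n z) (h1 : L5 n x y i s2 s3 s4 s5)
    (h2 : L5 n y z i t2 t3 t4 t5) (h3 : L5 n x z i u2 u3 u4 u5) : False := by
  have dl := fun v (hv : i ≤ v) (hv' : v < n) => h2.delay hy hz hv hv'
  obtain ⟨h1, a2, a3, a4⟩ := h1
  obtain ⟨h2, b2, b3, b4⟩ := h2
  obtain ⟨h3, c2, c3, c4⟩ := h3
  have o1 := h1
  have o2 := h2
  have o3 := h3
  obtain ⟨p1, p2, p3, p4, p5, p6, p7, p8, p9⟩ := o1
  obtain ⟨q1, q2, q3, q4, q5, q6, q7, q8, q9⟩ := o2
  obtain ⟨r1, r2, r3, r4, r5, r6, r7, r8, r9⟩ := o3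
  have e1 : u5 ≤ s5 := by
    have : u5 - 1 < s5 := by
      apply hy.lt_of (by omega)
      have := dl (u5 - 1) (by omega) (by omega)
      have := hx.le (show u5 ≤ n - 1 by omega) (by omega)
      omega
    omega
  have e2 : s3 ≤ u3 := by
    have : s3 - 1 < u3 := by
      apply hx.lt_of (by omega)
      have := dl i le_rfl (by omega)
      have := hz.le (show i ≤ u2 - 1 by omega) (by omega)
      omega
    omega
  have e3 : u5 = s5 := by
    by_contra hne
    have : u5 - 1 < s3 := by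
      apply hy.lt_of (by omega)
      have := dl (u5 - 1) (by omega) (by omega)
      have := hx.le (show u5 ≤ s5 - 1 by omega) (by omega)
      omega
    omega
  subst e3
  have e4 : t5 = u5 := by
    rcases lt_trichotomy t5 u5 with h | h | h
    · exfalso
      have g1 := hz.le (show t5 ≤ u5 - 1 by omega) (by omega)
      have g2 := hx.le (show u5 ≤ n - 1 by omega) (by omega)
      have g3 := hy.le (show u5 ≤ n - 1 by omega) (by omega)
      omega
    · exact h
    · exfalso
      have g1 := h2.delay hy hz b2.le (v := u5 - 1) (by omega) (by omega)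
      rw [show u5 - 1 + 1 = u5 by omega] at g1
      have g2 := hx.le (show u5 ≤ n - 1 by omega) (by omega)
      omega
  subst e4
  exact h1.flat hx hy hz b2.le h2 h3

theorem W5.tri {r n β i1 i2 i3 : ℕ} {x y z : ℕ → ℕ} (hβn : β < n)
    (hx : Inc n x) (hy : Inc n y) (hz : Inc n z)
    (g1 : β - r ≤ i1) (k1 : i1 < β) (m1 : ∀ j < i1, x j = y j) (l1 : x i1 < y i1)
    (g2 : β - r ≤ i2) (k2 : i2 < β) (m2 : ∀ j < i2, y j = z j) (l2 : y i2 < z i2)
    (m3 : ∀ j < i3, x j = z j) (l3 : x i3 < z i3)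
    (w1 : W5 r n β i1 x y) (w2 : W5 r n β i2 y z) (w3 : W5 r n β i3 x z) : False := by
  rcases lt_trichotomy i1 i2 with h | h | h
  · -- `y` and `z` split later
    have h13 : i3 = i1 := by
      rcases lt_trichotomy i3 i1 with h' | h' | h'
      · have := m1 i3 h'; have := m2 i3 (by omega); omega
      · exact h'
      · have := m3 i1 h'; have := m2 i1 h; omega
    subst h13
    rcases w2 with ⟨_, t2, t3, t4, hQ, ht⟩ | ⟨h', _⟩
    swap
    · omega
    have dl := fun v (hv : i2 ≤ v) (hv' : v + 1 < n) => hQ.delay hy hz le_rfl hv hv'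
    have hyz : y i3 = z i3 := m2 i3 h
    rcases w1 with ⟨c1, s2, s3, s4, h1, hs⟩ | ⟨c1, s2, s3, s4, s5, h1, hs⟩
    · rcases w3 with ⟨_, u2, u3, u4, h3, hu⟩ | ⟨c3, _⟩
      swap
      · exact absurd c3 c1
      obtain ⟨p1, p2, p3, p4, p5, p6, p7, p8, p9⟩ := h1
      obtain ⟨q1, q2, q3, q4, q5, q6, q7, q8, q9⟩ := h3
      have e1 : u3 < s3 := by
        apply hy.lt_of (by omega)
        have := dl (u3 - 1) (by omega) (by omega)
        rw [show u3 - 1 + 1 = u3 by omega] at this
        have := hx.le (show u4 ≤ n - 1 by omega) (by omega)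
        omega
      have e2 : s3 - 1 < u3 := by
        apply hx.lt_of (by omega)
        have := hz.le (show i3 ≤ u2 - 1 by omega) (by omega)
        omega
      omega
    · rcases w3 with ⟨c3, _⟩ | ⟨_, u2, u3, u4, u5, h3, hu⟩
      · exact absurd c1 c3
      obtain ⟨⟨p1, p2, p3, p4, p5, p6, p7, p8, p9⟩, p10, p11, p12⟩ := h1
      obtain ⟨⟨q1, q2, q3, q4, q5, q6, q7, q8, q9⟩, q10, q11, q12⟩ := h3
      have e1 : u5 < s5 := by
        apply hy.lt_of (by omega)
        have := dl (u5 - 1) (by omega) (by omega)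
        rw [show u5 - 1 + 1 = u5 by omega] at this
        have := hx.le (show u5 ≤ n - 1 by omega) (by omega)
        omega
      have e2 : u5 < s3 := by
        apply hy.lt_of (by omega)
        have := dl (u5 - 1) (by omega) (by omega)
        rw [show u5 - 1 + 1 = u5 by omega] at this
        have := hx.le (show u5 ≤ s5 - 1 by omega) (by omega)
        omega
      have e3 : s3 - 1 < u3 := by
        apply hx.lt_of (by omega)
        have := hz.le (show i3 ≤ u2 - 1 by omega) (by omega)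
        omega
      omega
  · -- all three split at the same position
    subst h
    have h13 : i3 = i1 := by
      rcases lt_trichotomy i3 i1 with h' | h' | h'
      · have := m1 i3 h'; have := m2 i3 (by omega); omega
      · exact h'
      · have := m3 i1 h'; omega
    subst h13
    rcases w1 with ⟨c1, s2, s3, s4, h1, hs⟩ | ⟨c1, s2, s3, s4, s5, h1, hs⟩
    · rcases w2 with ⟨_, t2, t3, t4, h2, ht⟩ | ⟨c2, _⟩
      swap
      · exact absurd c2 c1
      rcases w3 with ⟨_, u2, u3, u4, h3, hu⟩ | ⟨c3, _⟩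
      swap
      · exact absurd c3 c1
      exact h1.flat hx hy hz le_rfl h2 h3
    · rcases w2 with ⟨c2, _⟩ | ⟨_, t2, t3, t4, t5, h2, ht⟩
      · exact absurd c1 c2
      rcases w3 with ⟨c3, _⟩ | ⟨_, u2, u3, u4, u5, h3, hu⟩
      · exact absurd c1 c3
      exact h1.flat hx hy hz h2 h3
  · -- `x` and `y` split later
    have h23 : i3 = i2 := by
      rcases lt_trichotomy i3 i2 with h' | h' | h'
      · have := m1 i3 (by omega); have := m2 i3 h'; omega
      · exact h'
      · have := m3 i2 h'; have := m1 i2 h; omega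
    subst h23
    rcases w1 with ⟨_, t2, t3, t4, hQ, ht⟩ | ⟨h', _⟩
    swap
    · omega
    have dl := fun v (hv : i1 ≤ v) (hv' : v + 1 < n) => hQ.delay hx hy le_rfl hv hv'
    have hend : x (n - 1) < y (n - 1) := by
      obtain ⟨_, _, _, _, _, _, _, _, h9⟩ := hQ
      exact lt_of_lt_of_le h9 (hy.le (by omega) (by omega))
    rcases w2 with ⟨c2, s2, s3, s4, h2, hs⟩ | ⟨c2, s2, s3, s4, s5, h2, hs⟩
    · rcases w3 with ⟨_, u2, u3, u4, h3, hu⟩ | ⟨c3, _⟩
      swap
      · exact absurd c3 c2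
      obtain ⟨p1, p2, p3, p4, p5, p6, p7, p8, p9⟩ := h2
      obtain ⟨q1, q2, q3, q4, q5, q6, q7, q8, q9⟩ := h3
      have e1 : u3 - 1 < s3 := by
        apply hz.lt_of (by omega)
        have := hx.le (show u4 ≤ n - 1 by omega) (by omega)
        omega
      have e2 : s3 < u3 := by
        apply hx.lt_of (by omega)
        have := dl (s3 - 1) (by omega) (by omega)
        rw [show s3 - 1 + 1 = s3 by omega] at this
        have := hz.le (show i3 ≤ u2 - 1 by omega) (by omega)
        omega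
      omega
    · rcases w3 with ⟨c3, _⟩ | ⟨_, u2, u3, u4, u5, h3, hu⟩
      · exact absurd c2 c3
      obtain ⟨⟨p1, p2, p3, p4, p5, p6, p7, p8, p9⟩, p10, p11, p12⟩ := h2
      obtain ⟨⟨q1, q2, q3, q4, q5, q6, q7, q8, q9⟩, q10, q11, q12⟩ := h3
      have e1 : u5 - 1 < s5 := by
        apply hz.lt_of (by omega)
        have := hx.le (show u5 ≤ n - 1 by omega) (by omega)
        omega
      rcases Nat.lt_or_ge u5 s5 with hlt | hge
      · have a1 := dl (s5 - 1) (by omega) (by omega)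
        rw [show s5 - 1 + 1 = s5 by omega] at a1
        have a2 : u5 - 1 < s3 := by
          apply hz.lt_of (by omega)
          have := hx.le (show u5 ≤ s5 by omega) (by omega)
          omega
        have a3 := dl (s3 - 1) (by omega) (by omega)
        rw [show s3 - 1 + 1 = s3 by omega] at a3
        have a4 : s3 < u3 := by
          apply hx.lt_of (by omega)
          have := hz.le (show i3 ≤ u2 - 1 by omega) (by omega)
          omega
        omega
      · have a0 : u5 = s5 := by omega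
        subst a0
        have a1 := dl (u5 - 1) (by omega) (by omega)
        rw [show u5 - 1 + 1 = u5 by omega] at a1
        have a2 := hz.le (show s3 ≤ u5 - 1 by omega) (by omega)
        omega

theorem list_split5 {S : List ℕ} (h : 4 ≤ S.length) :
    ∃ a b c A e, S = (a :: b :: c :: A) ++ [e] := by
  rcases S with _ | ⟨a, S⟩
  · simp at h
  rcases S with _ | ⟨b, S⟩
  · simp at h
  rcases S with _ | ⟨c, S⟩
  · simp at h
  rcases S.eq_nil_or_concat with rfl | ⟨A, e, rfl⟩
  · simp at h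
  · exact ⟨a, b, c, A, e, by simp⟩

theorem list_split4 {S : List ℕ} (h : 3 ≤ S.length) :
    ∃ a A d e, S = (a :: A) ++ [d, e] := by
  rcases S with _ | ⟨a, S⟩
  · simp at h
  rcases S.eq_nil_or_concat with rfl | ⟨A, e, rfl⟩
  · simp at h
  rcases A.eq_nil_or_concat with rfl | ⟨A, d, rfl⟩
  · simp at h
  exact ⟨a, A, d, e, by simp⟩

theorem not_arrow_five {r n : ℕ} (hr : 4 ≤ r) (hn : 1 ≤ n) :
    ¬ Arrow (ω ^ n) (ω ^ (r + 1)) (2 ^ ((n - 1) / r) + 1) := by
  apply not_arrow (R5 r n)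
  · intro H s S q hH hS hN
    have hsn : s < n := hN.lt.1
    by_cases hdvd : r ∣ (n - s)
    · obtain ⟨a, b, c, A, e, rfl⟩ := list_split5 (hS ▸ hr : 4 ≤ S.length)
      have hlen := hN.length_lt
      have hsub : [a, b, c, e].Sublist ((a :: b :: c :: A) ++ [e]) := by
        have h1 : [a, b, c, e] = [a, b, c] ++ [e] := rfl
        rw [h1]
        apply List.Sublist.append _ (List.Sublist.refl _)
        exact List.Sublist.cons_cons _ (List.Sublist.cons_cons _ (List.Sublist.cons_cons _ (List.nil_sublist _)))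
      obtain ⟨x, hx, y, hy, hj, hQ, h5, h6, h7⟩ := Q4.exists5 (hN.sublist hsub)
      refine ⟨x, hx, y, hy, ?_, s, hj, Or.inr ⟨hdvd, a, b, c, e, ⟨hQ, h5, h6, h7⟩, ?_⟩⟩
      · rintro rfl
        exact lt_irrefl _ (hQ.first (hH x hx) h5.le).2
      · obtain ⟨m, hm⟩ := hdvd
        have hm0 : 0 < m := by
          rcases Nat.eq_zero_or_pos m with h | h
          · subst h; omega
          · exact h
        have hdiv : (n - s - 1) / r = m - 1 := by
          rw [Nat.div_eq_iff (by omega)]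
          obtain ⟨m', rfl⟩ : ∃ m', m = m' + 1 := ⟨m - 1, by omega⟩
          rw [mul_add] at hm
          simp only [Nat.add_sub_cancel]
          have : m' * r = r * m' := mul_comm _ _
          constructor <;> omega
        rw [hdiv]
        obtain ⟨m', rfl⟩ : ∃ m', m = m' + 1 := ⟨m - 1, by omega⟩
        rw [mul_add] at hm
        simp only [Nat.add_sub_cancel]
        simp only [List.length_append, List.length_cons, List.length_nil] at hS hlen
        omega
    · obtain ⟨a, A, d, e, rfl⟩ := list_split4 (by omega : 3 ≤ S.length)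
      have hlen := hN.length_lt
      have hsub : [a, d, e].Sublist ((a :: A) ++ [d, e]) := by
        have h1 : [a, d, e] = [a] ++ [d, e] := rfl
        rw [h1]
        apply List.Sublist.append _ (List.Sublist.refl _)
        exact List.Sublist.cons_cons _ (List.nil_sublist _)
      obtain ⟨x, hx, y, hy, hj, hQ⟩ := Q4.exists (hN.sublist hsub)
      refine ⟨x, hx, y, hy, ?_, s, hj, Or.inl ⟨hdvd, a, d, e, hQ, ?_⟩⟩
      · rintro rfl
        exact lt_irrefl _ (hQ.first (hH x hx) le_rfl).2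
      · simp only [List.length_append, List.length_cons, List.length_nil] at hS hlen
        have h1 := Nat.div_add_mod (n - s) r
        have h2 := Nat.mod_lt (n - s) (show 0 < r by omega)
        have h3 : (n - s) % r ≠ 0 := fun h => hdvd (Nat.dvd_of_mod_eq_zero h)
        have h4 : (n - s - 1) / r = (n - s) / r := by
          rw [Nat.div_eq_iff (by omega)]
          have : (n - s) / r * r = r * ((n - s) / r) := mul_comm _ _
          constructor <;> omega
        rw [h4]
        omega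
  · intro K h1 h2 h3
    refine card_le_two_pow (r := r) (R5 r n) ?_ ?_ ((n - 1) / r) K h1 h2 h3 ?_
    · intro x y i hx hy hi hj hlt hR
      have h := R5.orient hx hy hj hlt hR
      have key : ∀ m, n - m ≤ r * ((n - i - 1) / r) → m < n → r < n - i := by
        intro m hm hmn
        by_contra hcon
        have : (n - i - 1) / r = 0 := Nat.div_eq_of_lt (by omega)
        rw [this] at hm
        omega
      rcases h with ⟨_, s2, s3, s4, hQ, hs⟩ | ⟨_, s2, s3, s4, s5, hQ, hs⟩
      · obtain ⟨_, _, _, _, _⟩ := hQ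
        exact key s3 hs (by omega)
      · exact key s5 hs hQ.2.1
    · rintro x y z β hx hy hz r1 r2 r3 ⟨t, ht, hβ⟩ ⟨i1, g1, k1, m1, l1⟩ ⟨i2, g2, k2, m2, l2⟩
        ⟨i3, g3, k3, m3, l3⟩
      have hr0 : 0 < r := by omega
      have hβn : β < n := by
        have := Nat.mul_pos hr0 ht
        omega
      exact W5.tri hβn hx hy hz g1 k1 m1 l1 g2 k2 m2 l2 m3 l3
        ((R5.orient hx hy m1 l1 r1).toW hr0 hβ g1 k1)
        ((R5.orient hy hz m2 l2 r2).toW hr0 hβ g2 k2)
        ((R5.orient hx hz m3 l3 r3).toW hr0 hβ g3 k3)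
    · intro x _ y _ j hj
      exfalso
      have h1 := Nat.div_add_mod (n - 1) r
      have h2 := Nat.mod_lt (n - 1) (show 0 < r by omega)
      rw [mul_add] at hj
      omega

end Pool.Agent.Helper18.EH
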