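import Pool.Agent.Helper18.EH.Defs
import Pool.Agent.Helper18.EH.Ramsey

/-!
The positive relation `ω ^ (1 + κ ℓ) → (ω ^ (κ + 1), 2 ^ ℓ)²` for finite exponents.
-/

namespace Pool.Agent.Helper18.EH

open Ordinal

/-- The number `1 + κ ℓ`, in a form convenient for recursion. -/
def sz (κ : ℕ) : ℕ → ℕ
  | 0 => 1
  | ℓ + 1 => κ + sz κ ℓ

theorem sz_eq (κ ℓ : ℕ) : sz κ ℓ = κ * ℓ + 1 := by
  induction ℓ with
  | zero => rfl
  | succ ℓ ih => simp only [sz, ih]; ring

/-- The colouring only depends on the relative order of the two tuples. -/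
def Inv {n : ℕ} (c : (Fin n → ℕ) → (Fin n → ℕ) → Bool) : Prop :=
  ∀ x y x' y', OrdEq (Sum.elim x y) (Sum.elim x' y') → c x y = c x' y'

theorem mul_add_lt_iff {N a b r s : ℕ} (hr : r < N) (hs : s < N) :
    N * a + r < N * b + s ↔ a < b ∨ (a = b ∧ r < s) := by
  constructor
  · intro h
    rcases lt_trichotomy a b with h1 | h1 | h1
    · exact Or.inl h1
    · subst h1; exact Or.inr ⟨rfl, by omega⟩
    · exfalso
      have : N * (b + 1) ≤ N * a := Nat.mul_le_mul_left N h1
      rw [mul_add] at this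
      omega
  · rintro (h | ⟨rfl, h⟩)
    · have : N * (a + 1) ≤ N * b := Nat.mul_le_mul_left N h
      rw [mul_add] at this
      omega
    · omega

section Code

/-- Codes of the initial segments of a sequence. -/
def code (u : ℕ → ℕ) : ℕ → ℕ
  | 0 => u 0
  | j + 1 => Nat.pair (code u j) (u (j + 1) + 1)

theorem code_lt_succ (u : ℕ → ℕ) (j : ℕ) : code u j < code u (j + 1) := by
  have h1 : Nat.pair (code u j) 0 < Nat.pair (code u j) (u (j + 1) + 1) :=
    Nat.pair_lt_pair_right _ (Nat.succ_pos _)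
  exact lt_of_le_of_lt (Nat.left_le_pair _ _) h1

theorem code_strictMono (u : ℕ → ℕ) : StrictMono (code u) := strictMono_nat_of_lt_succ (code_lt_succ u)

theorem code_inj {u v : ℕ → ℕ} {j : ℕ} (h : code u j = code v j) : ∀ i ≤ j, u i = v i := by
  induction j with
  | zero => intro i hi; rw [Nat.le_zero.1 hi]; exact h
  | succ j ih =>
    have h' := Nat.pair_eq_pair.1 h
    intro i hi
    rcases Nat.lt_or_ge i (j + 1) with hij | hij
    · exact ih h'.1 i (Nat.lt_succ_iff.1 hij)
    · have : i = j + 1 := le_antisymm hi hij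
      rw [this]; exact Nat.succ_injective h'.2

theorem code_congr {u v : ℕ → ℕ} {j : ℕ} (h : ∀ i ≤ j, u i = v i) : code u j = code v j := by
  induction j with
  | zero => exact h 0 le_rfl
  | succ j ih =>
    simp only [code]
    rw [ih (fun i hi => h i (Nat.le_succ_of_le hi)), h (j + 1) le_rfl]

theorem code_lt {u v : ℕ → ℕ} {j : ℕ} (h : ∀ i < j, u i = v i) (hj : u j < v j) :
    code u j < code v j := by
  cases j with
  | zero => exact hj
  | succ j =>
    simp only [code]
    rw [code_congr (fun i hi => h i (Nat.lt_succ_of_le hi))]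
    exact Nat.pair_lt_pair_right _ (by omega)

end Code

/-- Extension of a tuple to a sequence. -/
def ext {k : ℕ} (u : Fin k → ℕ) : ℕ → ℕ := fun i => if h : i < k then u ⟨i, h⟩ else 0

theorem ext_apply {k : ℕ} (u : Fin k → ℕ) (i : Fin k) : ext u i = u i := by
  simp [ext]

/-- The tuple with scaled codes in the first `κ` places and a shifted copy of `w` at the end. -/
def blk {κ n' : ℕ} (N : ℕ) (e : ℕ → ℕ) (w : Fin n' → ℕ) : Fin (κ + n') → ℕ :=
  Fin.append (fun j : Fin κ => N * e j) (fun t => N * e κ + (1 + w t))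

/-- the canonical tuple `0, 1, …, κ-1` followed by a shift of `w`. -/
def shf (κ : ℕ) {n' : ℕ} (w : Fin n' → ℕ) : Fin (κ + n') → ℕ :=
  Fin.append (fun j : Fin κ => (j : ℕ)) (fun t => κ + w t)

theorem castAdd_lt_castAdd' {κ n' : ℕ} {i j : Fin κ} (h : Fin.castAdd n' i < Fin.castAdd n' j) :
    i < j := h

theorem natAdd_lt_natAdd' {κ n' : ℕ} {i j : Fin n'} (h : Fin.natAdd κ i < Fin.natAdd κ j) :
    i < j := by
  have := Fin.lt_def.1 h
  simp at this
  exact this

theorem not_natAdd_lt_castAdd {κ n' : ℕ} {i : Fin n'} {j : Fin κ}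
    (h : Fin.natAdd κ i < Fin.castAdd n' j) : False := by
  have := Fin.lt_def.1 h
  simp at this
  omega

theorem blk_strictMono {κ n' N : ℕ} (hN : 0 < N) {e : ℕ → ℕ} (he : StrictMono e) {w : Fin n' → ℕ}
    (hw : StrictMono w) : StrictMono (blk (κ := κ) N e w) := by
  intro a b
  refine Fin.addCases (fun i => ?_) (fun i => ?_) a <;>
  refine Fin.addCases (fun j => ?_) (fun j => ?_) b <;> intro hab <;>
    simp only [blk, Fin.append_left, Fin.append_right]
  · exact Nat.mul_lt_mul_of_pos_left (he (castAdd_lt_castAdd' hab)) hN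
  · have := Nat.mul_le_mul_left N (he i.2).le
    omega
  · exact (not_natAdd_lt_castAdd hab).elim
  · have := hw (natAdd_lt_natAdd' hab)
    omega

theorem shf_lex {κ n' : ℕ} {w w' : Fin n' → ℕ} (h : toLex w < toLex w') :
    toLex (shf κ w) < toLex (shf κ w') := by
  obtain ⟨i, hi, hi'⟩ := h
  refine ⟨Fin.natAdd κ i, fun j => ?_, ?_⟩
  · refine Fin.addCases (fun j _ => ?_) (fun j hj => ?_) j
    · simp only [shf, Pi.toLex_apply, Fin.append_left]
    · simp only [shf, Pi.toLex_apply, Fin.append_right]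
      have := hi j (natAdd_lt_natAdd' hj)
      simp only [Pi.toLex_apply] at this
      rw [this]
  · simp only [shf, Pi.toLex_apply, Fin.append_right]
    simp only [Pi.toLex_apply] at hi'
    omega

theorem shf_ordEq {κ n' : ℕ} {w w' v v' : Fin n' → ℕ}
    (h : OrdEq (Sum.elim w w') (Sum.elim v v')) :
    OrdEq (Sum.elim (shf κ w) (shf κ w')) (Sum.elim (shf κ v) (shf κ v')) := by
  intro a b
  rcases a with a | a <;> rcases b with b | b <;>
  refine Fin.addCases (fun i => ?_) (fun i => ?_) a <;>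
  refine Fin.addCases (fun j => ?_) (fun j => ?_) b <;>
    simp only [shf, Sum.elim_inl, Sum.elim_inr, Fin.append_left, Fin.append_right]
  all_goals try (have := i.2; constructor <;> intro _ <;> omega)
  · have := h (Sum.inl i) (Sum.inl j); simp only [Sum.elim_inl] at this; omega
  · have := h (Sum.inl i) (Sum.inr j); simp only [Sum.elim_inl, Sum.elim_inr] at this; omega
  · have := h (Sum.inr i) (Sum.inl j); simp only [Sum.elim_inl, Sum.elim_inr] at this; omega
  · have := h (Sum.inr i) (Sum.inr j); simp only [Sum.elim_inr] at this; omega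

/-- Two members of the same block compare like the two small tuples. -/
theorem ordEq_same {κ n' N : ℕ} (hN : 0 < N) {e : ℕ → ℕ} (he : StrictMono e) {w w' : Fin n' → ℕ} :
    OrdEq (Sum.elim (blk (κ := κ) N e w) (blk (κ := κ) N e w'))
      (Sum.elim (shf κ w) (shf κ w')) := by
  have aux1 : ∀ (i j : Fin κ), (N * e i < N * e j ↔ (i : ℕ) < (j : ℕ)) := by
    intro i j
    rw [Nat.mul_lt_mul_left hN, he.lt_iff_lt]
  have aux2 : ∀ (i : Fin κ), N * e i ≤ N * e κ := fun i => Nat.mul_le_mul_left N (he i.2).le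
  intro a b
  rcases a with a | a <;> rcases b with b | b <;>
  refine Fin.addCases (fun i => ?_) (fun i => ?_) a <;>
  refine Fin.addCases (fun j => ?_) (fun j => ?_) b <;>
    simp only [blk, shf, Sum.elim_inl, Sum.elim_inr, Fin.append_left, Fin.append_right]
  all_goals try exact aux1 i j
  all_goals try (have := aux2 i; have := i.2; constructor <;> intro _ <;> omega)
  all_goals try (have := aux2 j; have := j.2; constructor <;> intro _ <;> omega)
  all_goals (constructor <;> intro _ <;> omega)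

/-- Comparisons between two blocks with different last codes do not depend on the contents. -/
theorem ordEq_cross {κ n' N M : ℕ} {e f : ℕ → ℕ} (hef : e κ ≠ f κ)
    {w w' v v' : Fin n' → ℕ} (hN : 0 < N) (hM : 0 < M)
    (hw : ∀ t, 1 + w t < N) (hw' : ∀ t, 1 + w' t < N)
    (hv : ∀ t, 1 + v t < M) (hv' : ∀ t, 1 + v' t < M)
    (mw : StrictMono w) (mw' : StrictMono w') (mv : StrictMono v) (mv' : StrictMono v') :
    OrdEq (Sum.elim (blk (κ := κ) N e w) (blk (κ := κ) N f w'))
      (Sum.elim (blk (κ := κ) M e v) (blk (κ := κ) M f v')) := by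
  have key : ∀ (A B r s r' s' : ℕ), r < N → s < N → r' < M → s' < M →
      (A = B → (r < s ↔ r' < s')) → (N * A + r < N * B + s ↔ M * A + r' < M * B + s') := by
    intro A B r s r' s' h1 h2 h3 h4 h5
    rw [mul_add_lt_iff h1 h2, mul_add_lt_iff h3 h4]
    constructor
    · rintro (h | ⟨h, h'⟩)
      · exact Or.inl h
      · exact Or.inr ⟨h, (h5 h).1 h'⟩
    · rintro (h | ⟨h, h'⟩)
      · exact Or.inl h
      · exact Or.inr ⟨h, (h5 h).2 h'⟩
  intro a b
  rcases a with a | a <;> rcases b with b | b <;>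
  refine Fin.addCases (fun i => ?_) (fun i => ?_) a <;>
  refine Fin.addCases (fun j => ?_) (fun j => ?_) b <;>
    simp only [blk, Sum.elim_inl, Sum.elim_inr, Fin.append_left, Fin.append_right]
  · exact key _ _ 0 0 0 0 hN hN hM hM (fun _ => Iff.rfl)
  · exact key _ _ 0 _ 0 _ hN (hw j) hM (hv j) (fun _ => by omega)
  · exact key _ _ _ 0 _ 0 (hw i) hN (hv i) hM (fun _ => by omega)
  · exact key _ _ _ _ _ _ (hw i) (hw j) (hv i) (hv j)
      (fun _ => by rw [Nat.add_lt_add_iff_left, Nat.add_lt_add_iff_left, mw.lt_iff_lt, mv.lt_iff_lt])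
  · exact key _ _ 0 0 0 0 hN hN hM hM (fun _ => Iff.rfl)
  · exact key _ _ 0 _ 0 _ hN (hw' j) hM (hv' j) (fun _ => by omega)
  · exact key _ _ _ 0 _ 0 (hw i) hN (hv i) hM (fun _ => by omega)
  · exact key _ _ _ _ _ _ (hw i) (hw' j) (hv i) (hv' j) (fun h => absurd h hef)
  · exact key _ _ 0 0 0 0 hN hN hM hM (fun _ => Iff.rfl)
  · exact key _ _ 0 _ 0 _ hN (hw j) hM (hv j) (fun _ => by omega)
  · exact key _ _ _ 0 _ 0 (hw' i) hN (hv' i) hM (fun _ => by omega)
  · exact key _ _ _ _ _ _ (hw' i) (hw j) (hv' i) (hv j) (fun h => absurd h.symm hef)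
  · exact key _ _ 0 0 0 0 hN hN hM hM (fun _ => Iff.rfl)
  · exact key _ _ 0 _ 0 _ hN (hw' j) hM (hv' j) (fun _ => by omega)
  · exact key _ _ _ 0 _ 0 (hw' i) hN (hv' i) hM (fun _ => by omega)
  · exact key _ _ _ _ _ _ (hw' i) (hw' j) (hv' i) (hv' j)
      (fun _ => by rw [Nat.add_lt_add_iff_left, Nat.add_lt_add_iff_left, mw'.lt_iff_lt, mv'.lt_iff_lt])

theorem blk_lex {κ n' N : ℕ} (hn : 0 < n') (hN : 0 < N) {u v : Fin (κ + 1) → ℕ} {w : Fin n' → ℕ}
    (h : toLex u < toLex v) :
    toLex (blk (κ := κ) N (code (ext u)) w) < toLex (blk (κ := κ) N (code (ext v)) w) := by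
  obtain ⟨i, hi, hi'⟩ := h
  simp only [Pi.toLex_apply] at hi hi'
  have hext : ∀ j : ℕ, j < (i : ℕ) → ext u j = ext v j := by
    intro j hj
    have hjk : j < κ + 1 := hj.trans i.2
    have := hi ⟨j, hjk⟩ hj
    simpa [ext, hjk] using this
  have hlt : ext u i < ext v i := by
    rw [ext_apply, ext_apply]; exact hi'
  have hcode : code (ext u) i < code (ext v) i := code_lt hext hlt
  have hceq : ∀ j : ℕ, j < (i : ℕ) → code (ext u) j = code (ext v) j := fun j hj =>
    code_congr (fun t ht => hext t (lt_of_le_of_lt ht hj))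
  rcases Nat.lt_or_ge (i : ℕ) κ with hik | hik
  · refine ⟨Fin.castAdd n' ⟨i, hik⟩, fun j => ?_, ?_⟩
    · refine Fin.addCases (fun j hj => ?_) (fun j hj => (not_natAdd_lt_castAdd hj).elim) j
      simp only [blk, Pi.toLex_apply, Fin.append_left]
      rw [hceq j (castAdd_lt_castAdd' hj)]
    · simp only [blk, Pi.toLex_apply, Fin.append_left]
      exact Nat.mul_lt_mul_of_pos_left hcode hN
  · have hiκ : (i : ℕ) = κ := le_antisymm (Nat.lt_succ_iff.1 i.2) hik
    rw [hiκ] at hcode hceq
    refine ⟨Fin.natAdd κ ⟨0, hn⟩, fun j => ?_, ?_⟩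
    · refine Fin.addCases (fun j hj => ?_) (fun j hj => ?_) j
      · simp only [blk, Pi.toLex_apply, Fin.append_left]
        rw [hceq j j.2]
      · exact absurd (natAdd_lt_natAdd' hj) (Nat.not_lt_zero _)
    · simp only [blk, Pi.toLex_apply, Fin.append_right]
      have := Nat.mul_lt_mul_of_pos_left hcode hN
      omega

/-- The alternative: a large colour `false` set or a colour `true` set with `m` elements. -/
def Alt (κ : ℕ) {n : ℕ} (c : (Fin n → ℕ) → (Fin n → ℕ) → Bool) (m : ℕ) : Prop :=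
  (∃ φ : (Fin (κ + 1) → ℕ) → (Fin n → ℕ),
      (∀ u v, toLex u < toLex v → toLex (φ u) < toLex (φ v)) ∧
      ∀ u v, u ≠ v → c (φ u) (φ v) = false) ∨
    (∃ K : Finset (Fin n → ℕ), K.card = m ∧ (∀ x ∈ K, StrictMono x) ∧
      ∀ x ∈ K, ∀ y ∈ K, x ≠ y → c x y = true)

theorem core_step {κ n' m : ℕ} (hpos : 0 < n')
    (c : (Fin (κ + n') → ℕ) → (Fin (κ + n') → ℕ) → Bool) (hc : Inv c)
    (hsym : ∀ x y, c x y = c y x) (h : Alt κ (fun w w' => c (shf κ w) (shf κ w')) m) :
    Alt κ c (2 * m) := by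
  rcases h with ⟨φ, h1, h2⟩ | ⟨K, hK, hKm, hKc⟩
  · exact Or.inl ⟨fun u => shf κ (φ u), fun u v h => shf_lex (h1 u v h), h2⟩
  · by_cases hall : ∀ u v : Fin (κ + 1) → ℕ, u ≠ v →
      c (blk (κ := κ) (n' + 1) (code (ext u)) (fun t : Fin n' => (t : ℕ)))
        (blk (κ := κ) (n' + 1) (code (ext v)) (fun t : Fin n' => (t : ℕ))) = false
    · exact Or.inl ⟨fun u => blk (κ := κ) (n' + 1) (code (ext u))
        (fun t : Fin n' => (t : ℕ)), fun u v h => blk_lex hpos (Nat.succ_pos _) h, hall⟩
    · push Not at hall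
      obtain ⟨u, v, huv, hcuv⟩ := hall
      have hcuv' : c (blk (κ := κ) (n' + 1) (code (ext u)) (fun t : Fin n' => (t : ℕ)))
        (blk (κ := κ) (n' + 1) (code (ext v)) (fun t : Fin n' => (t : ℕ))) = true := by
        simpa using hcuv
      have hne : code (ext u) κ ≠ code (ext v) κ := by
        intro h
        apply huv
        funext i
        have := code_inj h i (Nat.lt_succ_iff.1 i.2)
        rwa [ext_apply, ext_apply] at this
      let N := K.sup (fun w => Finset.univ.sup w) + 2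
      have hNpos : 0 < N := Nat.succ_pos _
      have hNw : ∀ w ∈ K, ∀ t, 1 + w t < N := by
        intro w hw t
        have h1 : w t ≤ Finset.univ.sup w := Finset.le_sup (f := w) (Finset.mem_univ t)
        have h2 : Finset.univ.sup w ≤ K.sup (fun w => Finset.univ.sup w) :=
          Finset.le_sup (f := fun w : Fin n' → ℕ => Finset.univ.sup w) hw
        show 1 + w t < K.sup (fun w => Finset.univ.sup w) + 2
        omega
      let X : (Fin n' → ℕ) → (Fin (κ + n') → ℕ) := fun w => blk (κ := κ) N (code (ext u)) w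
      let Y : (Fin n' → ℕ) → (Fin (κ + n') → ℕ) := fun w => blk (κ := κ) N (code (ext v)) w
      have binj : ∀ e : ℕ → ℕ, Function.Injective (fun w : Fin n' → ℕ => blk (κ := κ) N e w) := by
        intro e w w' h
        funext t
        have := congrFun h (Fin.natAdd κ t)
        simp only [blk, Fin.append_right] at this
        omega
      have hXY : ∀ w ∈ K, ∀ w' ∈ K, X w ≠ Y w' := by
        intro w hw w' hw' h
        have := congrFun h (Fin.natAdd κ ⟨0, hpos⟩)
        simp only [X, Y, blk, Fin.append_right] at this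
        rcases lt_or_gt_of_ne hne with h' | h'
        · have := (mul_add_lt_iff (hNw w hw ⟨0, hpos⟩) (hNw w' hw' ⟨0, hpos⟩)).2 (Or.inl h')
          omega
        · have := (mul_add_lt_iff (hNw w' hw' ⟨0, hpos⟩) (hNw w hw ⟨0, hpos⟩)).2 (Or.inl h')
          omega
      have hcross : ∀ w ∈ K, ∀ w' ∈ K, c (X w) (Y w') = true := by
        intro w hw w' hw'
        rw [← hcuv']
        apply hc
        exact ordEq_cross hne hNpos (Nat.succ_pos _) (hNw w hw) (hNw w' hw')
          (fun t => by have := t.2; omega) (fun t => by have := t.2; omega) (hKm w hw) (hKm w' hw')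
          (fun a b h => h) (fun a b h => h)
      have hsame : ∀ z : Fin (κ + 1) → ℕ, ∀ w ∈ K, ∀ w' ∈ K, w ≠ w' →
          c (blk (κ := κ) N (code (ext z)) w) (blk (κ := κ) N (code (ext z)) w') = true := by
        intro z w hw w' hw' hww
        rw [← hKc w hw w' hw' hww]
        exact hc _ _ _ _ (ordEq_same hNpos (code_strictMono _))
      have hcX : (K.image X).card = m := by
        rw [← hK]; exact Finset.card_image_of_injective K (binj _)
      have hcY : (K.image Y).card = m := by
        rw [← hK]; exact Finset.card_image_of_injective K (binj _)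
      refine Or.inr ⟨K.image X ∪ K.image Y, ?_, ?_, ?_⟩
      · rw [Finset.card_union_of_disjoint, hcX, hcY]
        · ring
        · rw [Finset.disjoint_left]
          intro x hx hx'
          obtain ⟨w, hw, rfl⟩ := Finset.mem_image.1 hx
          obtain ⟨w', hw', h⟩ := Finset.mem_image.1 hx'
          exact hXY w hw w' hw' h.symm
      · intro x hx
        rcases Finset.mem_union.1 hx with hx | hx
        · obtain ⟨w, hw, rfl⟩ := Finset.mem_image.1 hx
          exact blk_strictMono hNpos (code_strictMono _) (hKm w hw)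
        · obtain ⟨w, hw, rfl⟩ := Finset.mem_image.1 hx
          exact blk_strictMono hNpos (code_strictMono _) (hKm w hw)
      · intro x hx y hy hxy
        rcases Finset.mem_union.1 hx with hx | hx <;> rcases Finset.mem_union.1 hy with hy | hy <;>
        obtain ⟨w, hw, rfl⟩ := Finset.mem_image.1 hx <;>
        obtain ⟨w', hw', rfl⟩ := Finset.mem_image.1 hy
        · exact hsame u w hw w' hw' (fun h => hxy (by rw [h]))
        · exact hcross w hw w' hw'
        · rw [hsym]; exact hcross w' hw' w hw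
        · exact hsame v w hw w' hw' (fun h => hxy (by rw [h]))

theorem core (κ : ℕ) (ℓ : ℕ) : ∀ (c : (Fin (sz κ ℓ) → ℕ) → (Fin (sz κ ℓ) → ℕ) → Bool), Inv c →
    (∀ x y, c x y = c y x) → Alt κ c (2 ^ ℓ) := by
  induction ℓ with
  | zero =>
    intro c _ _
    refine Or.inr ⟨{(fun i => (i : ℕ) : Fin (sz κ 0) → ℕ)}, by simp, ?_, ?_⟩
    · intro x hx
      rw [Finset.mem_singleton.1 hx]
      exact fun a b h => h
    · intro x hx y hy hxy
      rw [Finset.mem_singleton.1 hx, Finset.mem_singleton.1 hy] at hxy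
      exact absurd rfl hxy
  | succ ℓ ih =>
    intro c hc hsym
    rw [pow_succ, mul_comm]
    exact core_step (by rw [sz_eq]; omega) c hc hsym (ih _
      (fun x y x' y' h => hc _ _ _ _ (shf_ordEq h)) (fun x y => hsym _ _))

/-- The relation `ω ^ (1 + κ ℓ) → (ω ^ (κ + 1), 2 ^ ℓ)²`. -/
theorem arrow_lower (κ ℓ : ℕ) : Arrow (ω ^ (sz κ ℓ)) (ω ^ (κ + 1)) (2 ^ ℓ) := by
  intro C hC
  let n := sz κ ℓ
  let ψ : (Fin n → ℕ) → ((ω : Ordinal.{0}) ^ n).ToType := fun x => (lexIso n).symm (toLex x)
  have hψ : ∀ x y, toLex x < toLex y → ψ x < ψ y := fun x y h => (lexIso n).symm.lt_iff_lt.2 h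
  have hψi : Function.Injective ψ := fun x y h => toLex.injective ((lexIso n).symm.injective h)
  obtain ⟨g, hg, hgc⟩ := canon (D := Fin n ⊕ Fin n)
    (fun e => C (ψ (fun i => e (Sum.inl i))) (ψ (fun i => e (Sum.inr i))))
  have hgl : ∀ x y : Fin n → ℕ, toLex x < toLex y → toLex (g ∘ x) < toLex (g ∘ y) := by
    rintro x y ⟨i, hi, hi'⟩
    exact ⟨i, fun j hj => congrArg g (hi j hj), hg hi'⟩
  have hgi : Function.Injective (fun x : Fin n → ℕ => g ∘ x) := fun x y h =>
    funext fun i => hg.injective (congrFun h i)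
  rcases core κ ℓ (fun x y => C (ψ (g ∘ x)) (ψ (g ∘ y)))
    (fun x y x' y' h => hgc (Sum.elim x y) (Sum.elim x' y') h) (fun x y => hC _ _) with
    ⟨φ, h1, h2⟩ | ⟨K, hK, _, hKc⟩
  · left
    let f : ((ω : Ordinal.{0}) ^ (κ + 1)).ToType → ((ω : Ordinal.{0}) ^ n).ToType :=
      fun z => ψ (g ∘ φ (ofLex (lexIso (κ + 1) z)))
    have hf : StrictMono f := by
      intro a b hab
      exact hψ _ _ (hgl _ _ (h1 _ _ ((lexIso (κ + 1)).lt_iff_lt.2 hab)))
    refine ⟨Set.range f, ?_, ?_⟩
    · rw [← (hf.orderIso f).toRelIsoLT.ordinalType_congr]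
      exact Ordinal.type_toType _
    · rintro _ ⟨a, rfl⟩ _ ⟨b, rfl⟩ hab
      apply h2
      intro h
      apply hab
      have : a = b := (lexIso (κ + 1)).injective (ofLex.injective h)
      rw [this]
  · right
    refine ⟨K.image (fun x => ψ (g ∘ x)), ?_, ?_⟩
    · rw [← hK]
      exact Finset.card_image_of_injective K
        (show Function.Injective (fun x => ψ (g ∘ x)) from fun x y h => hgi (hψi h))
    · intro x hx y hy hxy
      obtain ⟨a, ha, rfl⟩ := Finset.mem_image.1 hx
      obtain ⟨b, hb, rfl⟩ := Finset.mem_image.1 hy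
      exact hKc a ha b hb (fun h => hxy (by rw [h]))

/-- Monotonicity of the partition relation in the left hand ordinal. -/
theorem Arrow.mono_left {α α' β : Ordinal.{0}} {m : ℕ} (h : Arrow α β m) (hα : α ≤ α') :
    Arrow α' β m := by
  intro C hC
  let f : α.ToType ≤i α'.ToType :=
    (Ordinal.type_le_iff.1 (by rwa [Ordinal.type_toType, Ordinal.type_toType])).some
  rcases h (fun x y => C (f x) (f y)) (fun x y => hC _ _) with ⟨H, hH, hc⟩ | ⟨H, hH, hc⟩
  · left
    refine ⟨f '' H, ?_, ?_⟩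
    · rw [← hH]
      symm
      refine RelIso.ordinalType_congr (r := fun x y : H => x < y) (s := fun x y : (f '' H) => x < y) ?_
      refine ⟨Equiv.Set.image f H f.injective, ?_⟩
      intro a b
      show f a.1 < f b.1 ↔ a.1 < b.1
      exact f.map_rel_iff
    · rintro _ ⟨a, ha, rfl⟩ _ ⟨b, hb, rfl⟩ hab
      exact hc a ha b hb (fun h => hab (by rw [h]))
  · right
    classical
    refine ⟨H.image f, ?_, ?_⟩
    · rw [← hH]
      exact Finset.card_image_of_injective H f.injective
    · intro x hx y hy hxy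
      obtain ⟨a, ha, rfl⟩ := Finset.mem_image.1 hx
      obtain ⟨b, hb, rfl⟩ := Finset.mem_image.1 hy
      exact hc a ha b hb (fun h => hxy (by rw [h]))

/-- The Erdős–Milner relation for finite exponents. -/
theorem erdos_milner {k n : ℕ} (hk : 2 ≤ k) (hn : 1 ≤ n) :
    Arrow (ω ^ n) (ω ^ k) (2 ^ ((n - 1) / (k - 1))) := by
  obtain ⟨κ, rfl⟩ : ∃ κ, k = κ + 1 := ⟨k - 1, by omega⟩
  have h := arrow_lower κ ((n - 1) / κ)
  simp only [Nat.add_sub_cancel]
  refine h.mono_left ?_
  apply pow_le_pow_right₀ Ordinal.one_lt_omega0.le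
  rw [sz_eq]
  have := Nat.mul_div_le (n - 1) κ
  omega

end Pool.Agent.Helper18.EH
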