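import Pool.Agent.Helper18.EH.Upper

/-!
The interleaving pattern `XXYXYXYY` and its combinatorics.
-/

namespace Pool.Agent.Helper18.EH

theorem Inc.lt_of {n : ℕ} {x : ℕ → ℕ} (hx : Inc n x) {a b : ℕ} (ha : a < n) (h : x a < x b) :
    a < b := by
  by_contra hab
  rcases lt_or_eq_of_le (not_lt.1 hab) with h' | h'
  · exact absurd (hx b a h' ha) (by omega)
  · subst h'; exact lt_irrefl _ h

theorem Inc.le {n : ℕ} {x : ℕ → ℕ} (hx : Inc n x) {a b : ℕ} (hab : a ≤ b) (hb : b < n) :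
    x a ≤ x b := by
  rcases lt_or_eq_of_le hab with h | h
  · exact (hx a b h hb).le
  · rw [h]

theorem Node.drop {n : ℕ} {H : Set (ℕ → ℕ)} {S : List ℕ} {s s' : ℕ} {q : ℕ → ℕ}
    (h : Node n H (s' :: S) s q) : Node n H S s q := by
  obtain ⟨h1, h2⟩ := h
  cases S with
  | nil =>
    obtain ⟨_, _, _, h3⟩ := h2 0
    refine ⟨h1.trans h3.1, fun N => ?_⟩
    obtain ⟨q', g1, g2, g3, g4⟩ := h2 N
    obtain ⟨x, hx, _, hx'⟩ := g4 0
    exact ⟨x, hx, by rw [hx' s h1]; exact g1, fun j hj => by rw [hx' j (hj.trans h1), g2 j hj]⟩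
  | cons s'' S =>
    obtain ⟨_, _, _, h3, _⟩ := h2 0
    refine ⟨h1.trans h3, fun N => ?_⟩
    obtain ⟨q', g1, g2, g3, g4⟩ := h2 N
    obtain ⟨q'', _, k2, k3⟩ := g4 0
    exact ⟨q'', by rw [k2 s h1]; exact g1, fun j hj => by rw [k2 j (hj.trans h1), g2 j hj], k3⟩

theorem Node.sublist {n : ℕ} {H : Set (ℕ → ℕ)} {S S' : List ℕ} (hs : S'.Sublist S) :
    ∀ {s : ℕ} {q : ℕ → ℕ}, Node n H S s q → Node n H S' s q := by
  induction hs with
  | slnil => exact fun h => h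
  | cons a _ ih => exact fun h => ih h.drop
  | cons_cons a _ ih =>
    rintro s q ⟨h1, h2⟩
    refine ⟨h1, fun N => ?_⟩
    obtain ⟨q', g1, g2, g3⟩ := h2 N
    exact ⟨q', g1, g2, ih g3⟩

theorem Node.length_lt {n : ℕ} {H : Set (ℕ → ℕ)} {b : ℕ} {B : List ℕ} : ∀ {A : List ℕ} {s : ℕ}
    {q : ℕ → ℕ}, Node n H (A ++ b :: B) s q → s + A.length < b
  | [], _, _, h => h.1
  | a :: A, s, q, h => by
    obtain ⟨h1, h2⟩ := h
    obtain ⟨q', _, _, h3⟩ := h2 0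
    have h4 := h3.length_lt
    simp only [List.length_cons]
    have h1' : s < a := h1
    omega

/-- The pattern `XXYXYXYY` on the interval `[s1, e)`, with the blocks starting at
`s1, s2, s3, s4`. -/
def Q4 (x y : ℕ → ℕ) (s1 s2 s3 s4 e : ℕ) : Prop :=
  s1 < s2 ∧ s2 < s3 ∧ s3 < s4 ∧ s4 < e ∧ x (s3 - 1) < y s1 ∧ y (s2 - 1) < x s3 ∧
    x (s4 - 1) < y s2 ∧ y (s3 - 1) < x s4 ∧ x (e - 1) < y s3

theorem Q4.delay {n : ℕ} {x y : ℕ → ℕ} {s1 s2 s3 s4 e : ℕ} (hx : Inc n x) (hy : Inc n y)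
    (he : e ≤ n) (h : Q4 x y s1 s2 s3 s4 e) {v : ℕ} (hv : s1 ≤ v) (hv' : v + 1 < e) :
    x (v + 1) < y v := by
  obtain ⟨h1, h2, h3, h4, a1, a2, a3, a4, a5⟩ := h
  rcases Nat.lt_or_ge v s2 with g | g
  · have := hx.le (show v + 1 ≤ s3 - 1 by omega) (by omega)
    have := hy.le hv (by omega)
    omega
  · rcases Nat.lt_or_ge v s3 with g' | g'
    · have := hx.le (show v + 1 ≤ s4 - 1 by omega) (by omega)
      have := hy.le g (by omega)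
      omega
    · have := hx.le (show v + 1 ≤ e - 1 by omega) (by omega)
      have := hy.le g' (by omega)
      omega

theorem Q4.flat {n : ℕ} {x y z : ℕ → ℕ} {i s2 s3 s4 t2 t3 t4 u2 u3 u4 e : ℕ} (hx : Inc n x)
    (hy : Inc n y) (hz : Inc n z) (he : e ≤ n) (h1 : Q4 x y i s2 s3 s4 e)
    (h2 : Q4 y z i t2 t3 t4 e) (h3 : Q4 x z i u2 u3 u4 e) : False := by
  have d1 := h2.delay hy hz he (v := i) le_rfl (by obtain ⟨_, _, _, _, _⟩ := h2; omega)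
  have d2 := h2.delay hy hz he (v := u3 - 1) (by obtain ⟨_, _, _, _, _⟩ := h3; omega)
    (by obtain ⟨_, _, _, _, _⟩ := h3; omega)
  obtain ⟨a1, a2, a3, a4, a5, a6, a7, a8, a9⟩ := h1
  obtain ⟨b1, b2, b3, b4, b5, b6, b7, b8, b9⟩ := h2
  obtain ⟨c1, c2, c3, c4, c5, c6, c7, c8, c9⟩ := h3
  have e1 : s3 - 1 < u3 := by
    apply hx.lt_of (by omega)
    have := hy i (i + 1) (by omega) (by omega)
    have := hz.le (show i ≤ u2 - 1 by omega) (by omega)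
    omega
  have e2 : u3 < s3 := by
    apply hy.lt_of (by omega)
    have := hx.le (show u4 ≤ e - 1 by omega) (by omega)
    rw [show u3 - 1 + 1 = u3 by omega] at d2
    omega
  omega

/-- Realising the pattern `XXYXYXYY` inside a tree. -/
theorem Q4.exists {n : ℕ} {H : Set (ℕ → ℕ)} {s s2 s3 s4 : ℕ} {q : ℕ → ℕ}
    (h : Node n H [s2, s3, s4] s q) : ∃ x ∈ H, ∃ y ∈ H, (∀ j < s, x j = y j) ∧
      Q4 x y s s2 s3 s4 n := by
  obtain ⟨o1, h0⟩ := h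
  obtain ⟨q1, _, r1, o2, h1⟩ := h0 0
  obtain ⟨q2, _, r2, o3, h2⟩ := h1 0
  obtain ⟨p1, v1, w1, _, k1⟩ := h0 (q2 (s3 - 1))
  obtain ⟨q3, v2, r3, o4, h3⟩ := h2 (p1 (s2 - 1))
  obtain ⟨p2, v3, w2, _, k2⟩ := k1 (q3 (s4 - 1))
  obtain ⟨x, hxH, v4, r4⟩ := h3 (p2 (s3 - 1))
  obtain ⟨p3, v5, w3, _, k3⟩ := k2 (x (n - 1))
  obtain ⟨y, hyH, _, w4⟩ := k3 0
  refine ⟨x, hxH, y, hyH, fun j hj => ?_, o1, o2, o3, o4, ?_, ?_, ?_, ?_, ?_⟩
  · rw [r4 j (by omega), r3 j (by omega), r2 j (by omega), r1 j hj,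
      w4 j (by omega), w3 j (by omega), w2 j (by omega), w1 j hj]
  · rw [r4 _ (by omega), r3 _ (by omega), w4 s (by omega), w3 s (by omega), w2 s (by omega)]
    exact v1
  · rw [w4 _ (by omega), w3 _ (by omega), w2 _ (by omega), r4 s3 (by omega)]
    exact v2
  · rw [r4 _ (by omega), w4 s2 (by omega), w3 s2 (by omega)]
    exact v3
  · rw [w4 _ (by omega), w3 _ (by omega)]
    exact v4
  · rw [w4 s3 (by omega)]
    exact v5

/-- Realising the pattern `XXYXYXYYXY` inside a tree. -/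
theorem Q4.exists5 {n : ℕ} {H : Set (ℕ → ℕ)} {s s2 s3 s4 s5 : ℕ} {q : ℕ → ℕ}
    (h : Node n H [s2, s3, s4, s5] s q) : ∃ x ∈ H, ∃ y ∈ H, (∀ j < s, x j = y j) ∧
      Q4 x y s s2 s3 s4 s5 ∧ s5 < n ∧ y (s5 - 1) < x s5 ∧ x (n - 1) < y s5 := by
  obtain ⟨o1, h0⟩ := h
  obtain ⟨q1, _, r1, o2, h1⟩ := h0 0
  obtain ⟨q2, _, r2, o3, h2⟩ := h1 0
  obtain ⟨p1, v1, w1, _, k1⟩ := h0 (q2 (s3 - 1))
  obtain ⟨q3, v2, r3, o4, h3⟩ := h2 (p1 (s2 - 1))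
  obtain ⟨p2, v3, w2, _, k2⟩ := k1 (q3 (s4 - 1))
  obtain ⟨q4, v4, r4, o5, h4⟩ := h3 (p2 (s3 - 1))
  obtain ⟨p3, v5, w3, _, k3⟩ := k2 (q4 (s5 - 1))
  obtain ⟨p4, _, w4, _, k4⟩ := k3 0
  obtain ⟨x, hxH, v6, r5⟩ := h4 (p4 (s5 - 1))
  obtain ⟨y, hyH, v7, w5⟩ := k4 (x (n - 1))
  refine ⟨x, hxH, y, hyH, fun j hj => ?_, ⟨o1, o2, o3, o4, ?_, ?_, ?_, ?_, ?_⟩, o5, ?_, v7⟩
  · rw [r5 j (by omega), r4 j (by omega), r3 j (by omega), r2 j (by omega), r1 j hj,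
      w5 j (by omega), w4 j (by omega), w3 j (by omega), w2 j (by omega), w1 j hj]
  · rw [r5 _ (by omega), r4 _ (by omega), r3 _ (by omega), w5 s (by omega), w4 s (by omega),
      w3 s (by omega), w2 s (by omega)]
    exact v1
  · rw [w5 _ (by omega), w4 _ (by omega), w3 _ (by omega), w2 _ (by omega), r5 s3 (by omega),
      r4 s3 (by omega)]
    exact v2
  · rw [r5 _ (by omega), r4 _ (by omega), w5 s2 (by omega), w4 s2 (by omega), w3 s2 (by omega)]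
    exact v3
  · rw [w5 _ (by omega), w4 _ (by omega), w3 _ (by omega), r5 s4 (by omega)]
    exact v4
  · rw [r5 _ (by omega), w5 s3 (by omega), w4 s3 (by omega)]
    exact v5
  · rw [w5 _ (by omega)]
    exact v6

end Pool.Agent.Helper18.EH
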