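import Pool.Agent.Helper18.EH.Lower

/-!
Sets of order type `ω ^ k` in the lexicographic order contain uniform trees of height `k`.
-/

namespace Pool.Agent.Helper18.EH

open Ordinal

/-- The sequence is increasing on `[0, n)`. -/
def Inc (n : ℕ) (x : ℕ → ℕ) : Prop := ∀ i j, i < j → j < n → x i < x j

/-- Lexicographic comparison of the first `n` entries. -/
def LexLt (n : ℕ) (x y : ℕ → ℕ) : Prop := ∃ i < n, (∀ j < i, x j = y j) ∧ x i < y i

/-- A tree of splittings at the positions `s :: S` inside `H`, above the initial segment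
`q 0, …, q (s - 1)`. -/
def Node (n : ℕ) (H : Set (ℕ → ℕ)) : List ℕ → ℕ → (ℕ → ℕ) → Prop
  | [], s, q => s < n ∧ ∀ N, ∃ x ∈ H, N < x s ∧ ∀ j < s, x j = q j
  | s' :: S, s, q => s < s' ∧ ∀ N, ∃ q' : ℕ → ℕ, N < q' s ∧ (∀ j < s, q' j = q j) ∧
      Node n H S s' q'

theorem Node.lt {n : ℕ} {H : Set (ℕ → ℕ)} : ∀ {S : List ℕ} {s : ℕ} {q : ℕ → ℕ},
    Node n H S s q → s < n ∧ ∀ t ∈ S, t < n
  | [], _, _, h => ⟨h.1, by simp⟩
  | s' :: S, s, q, h => by
    obtain ⟨h1, h2⟩ := h
    obtain ⟨q', _, _, hq⟩ := h2 0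
    have h3 := hq.lt
    refine ⟨h1.trans h3.1, fun t ht => ?_⟩
    rcases List.mem_cons.1 ht with rfl | ht
    · exact h3.1
    · exact h3.2 t ht

theorem lexLt_cons {k : ℕ} {a b : ℕ} {u v : Fin k → ℕ} (h : a < b) :
    toLex (Fin.cons a u : Fin (k + 1) → ℕ) < toLex (Fin.cons b v : Fin (k + 1) → ℕ) :=
  ⟨0, fun j hj => absurd hj (by simp), h⟩

theorem lexLt_cons_right {k : ℕ} {a : ℕ} {u v : Fin k → ℕ} (h : toLex u < toLex v) :
    toLex (Fin.cons a u : Fin (k + 1) → ℕ) < toLex (Fin.cons a v : Fin (k + 1) → ℕ) := by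
  obtain ⟨i, hi, hi'⟩ := h
  refine ⟨i.succ, fun j hj => ?_, by simpa using hi'⟩
  revert hj
  refine Fin.cases (fun _ => rfl) (fun j hj => ?_) j
  have := hi j (Fin.succ_lt_succ_iff.1 hj)
  simpa using this

/-- Shift the first coordinate. -/
def shift {k : ℕ} (b : ℕ) (u : Fin (k + 1) → ℕ) : Fin (k + 1) → ℕ :=
  Fin.cons (u 0 + b) (fun i => u i.succ)

theorem shift_lt {k : ℕ} (b : ℕ) {u v : Fin (k + 1) → ℕ} (h : toLex u < toLex v) :
    toLex (shift b u) < toLex (shift b v) := by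
  obtain ⟨i, hi, hi'⟩ := h
  refine ⟨i, fun j hj => ?_, ?_⟩
  · have h1 := hi j hj
    revert h1
    refine Fin.cases (fun h1 => ?_) (fun j h1 => ?_) j
    · simp only [Pi.toLex_apply] at h1
      simp only [Pi.toLex_apply, shift, Fin.cons_zero, h1]
    · simpa [shift] using h1
  · revert hi'
    refine Fin.cases (fun h1 => ?_) (fun j h1 => ?_) i
    · simp only [Pi.toLex_apply] at h1
      simp only [Pi.toLex_apply, shift, Fin.cons_zero]
      omega
    · simpa [shift] using h1

theorem evconst {k : ℕ} (h : (Fin (k + 1) → ℕ) → ℕ) (hm : ∀ u v, toLex u < toLex v → h u ≤ h v)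
    (B : ℕ) (hB : ∀ u, h u ≤ B) : ∃ b v, ∀ u, b ≤ u 0 → h u = v := by
  classical
  let g : ℕ → ℕ := fun b => h (Fin.cons b (fun _ => 0))
  have hfin : (Set.range g).Finite := (Set.finite_Iic B).subset (by
    rintro _ ⟨b, rfl⟩; exact hB _)
  obtain ⟨m, ⟨b, hb⟩, hmax⟩ := Set.exists_max_image (Set.range g) id hfin ⟨g 0, 0, rfl⟩
  refine ⟨b, m, fun u hu => le_antisymm ?_ ?_⟩
  · have h1 : h u ≤ g (u 0 + 1) := hm _ _ ⟨0, fun j hj => absurd hj (by simp), by simp⟩
    exact h1.trans (hmax _ ⟨_, rfl⟩)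
  · rw [← hb]
    by_cases heq : (Fin.cons b (fun _ => 0) : Fin (k + 1) → ℕ) = u
    · show h _ ≤ h u
      rw [heq]
    · apply hm
      rcases lt_or_eq_of_le hu with hlt | heq'
      · exact ⟨0, fun j hj => absurd hj (by simp), hlt⟩
      · rcases lt_trichotomy (toLex (Fin.cons b (fun _ => 0) : Fin (k + 1) → ℕ)) (toLex u) with h1 | h1 | h1
        · exact h1
        · exact absurd (toLex.injective h1) heq
        · exfalso
          obtain ⟨i, hi, hi'⟩ := h1
          revert hi'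
          refine Fin.cases (fun h2 => ?_) (fun i h2 => ?_) i
          · simp only [Pi.toLex_apply, Fin.cons_zero] at h2
            omega
          · simp only [Pi.toLex_apply, Fin.cons_succ] at h2
            exact absurd h2 (Nat.not_lt_zero _)

theorem exists_node (n : ℕ) (H : Set (ℕ → ℕ)) : ∀ d i, i + d = n → ∀ (k : ℕ) (p : ℕ → ℕ)
    (f : (Fin (k + 1) → ℕ) → (ℕ → ℕ)), (∀ u v, toLex u < toLex v → LexLt n (f u) (f v)) →
    (∀ u, f u ∈ H) → (∀ u, ∀ j < i, f u j = p j) →
    ∃ (s : ℕ) (S : List ℕ) (q : ℕ → ℕ), i ≤ s ∧ S.length = k ∧ (∀ j < i, q j = p j) ∧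
      Node n H S s q := by
  intro d
  induction d with
  | zero =>
    intro i hi k p f hf _ hp
    exfalso
    obtain ⟨j, hj, _, hj'⟩ := hf (Fin.cons 0 (fun _ => 0)) (Fin.cons 1 (fun _ => 0))
      (lexLt_cons Nat.zero_lt_one)
    rw [hp _ j (by omega), hp _ j (by omega)] at hj'
    exact lt_irrefl _ hj'
  | succ d ih =>
    intro i hi k p f hf hH hp
    have hmono : ∀ u v, toLex u < toLex v → f u i ≤ f v i := by
      intro u v huv
      obtain ⟨j, _, h2, h3⟩ := hf u v huv
      rcases lt_trichotomy j i with h | h | h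
      · rw [hp u j h, hp v j h] at h3
        exact absurd h3 (lt_irrefl _)
      · subst h; exact h3.le
      · exact (h2 i h).le
    have step : ∀ (k' : ℕ) (f' : (Fin (k' + 1) → ℕ) → (ℕ → ℕ)),
        (∀ u v, toLex u < toLex v → LexLt n (f' u) (f' v)) → (∀ u, f' u ∈ H) →
        (∀ u, ∀ j < i, f' u j = p j) → (∀ u v, toLex u < toLex v → f' u i ≤ f' v i) →
        (∃ B, ∀ u, f' u i ≤ B) →
        ∃ (s : ℕ) (S : List ℕ) (q : ℕ → ℕ) (u : Fin (k' + 1) → ℕ), i + 1 ≤ s ∧ S.length = k' ∧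
          (∀ j < i, q j = p j) ∧ q i = f' u i ∧ Node n H S s q := by
      intro k' f' h1 h2 h3 h4 ⟨B, hB⟩
      obtain ⟨b, v, hbv⟩ := evconst (fun u => f' u i) h4 B hB
      obtain ⟨s, S, q, g1, g2, g3, g4⟩ := ih (i + 1) (by omega) k' (Function.update p i v)
        (fun u => f' (shift b u)) (fun u v h => h1 _ _ (shift_lt b h)) (fun u => h2 _)
        (fun u j hj => by
          rcases Nat.lt_succ_iff_lt_or_eq.1 hj with h | h
          · rw [Function.update_of_ne (ne_of_lt h)]; exact h3 _ j h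
          · subst h
            rw [Function.update_self]
            exact hbv _ (by simp [shift]))
      refine ⟨s, S, q, shift b (fun _ => 0), g1, g2, fun j hj => ?_, ?_, g4⟩
      · rw [g3 j (by omega), Function.update_of_ne (ne_of_lt hj)]
      · rw [g3 i (by omega), Function.update_self]
        exact (hbv _ (by simp [shift])).symm
    by_cases hb : ∃ B, ∀ u, f u i ≤ B
    · obtain ⟨s, S, q, _, g1, g2, g3, _, g4⟩ := step k f hf hH hp hmono hb
      exact ⟨s, S, q, by omega, g2, g3, g4⟩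
    · push Not at hb
      have hb' : ∀ N, ∃ a, ∀ w : Fin k → ℕ, N < f (Fin.cons a w) i := by
        intro N
        obtain ⟨u, hu⟩ := hb N
        refine ⟨u 0 + 1, fun w => lt_of_lt_of_le hu (hmono _ _ ?_)⟩
        exact ⟨0, fun j hj => absurd hj (by simp), by simp⟩
      cases k with
      | zero =>
        refine ⟨i, [], p, le_rfl, rfl, fun _ _ => rfl, by omega, fun N => ?_⟩
        obtain ⟨a, ha⟩ := hb' N
        exact ⟨_, hH _, ha (fun _ => 0), hp _⟩
      | succ k =>
        have hall : ∀ N, ∃ t : ℕ × List ℕ, t ∈ {t : ℕ × List ℕ | t.1 < n ∧ t.2.length = k ∧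
            ∀ r ∈ t.2, r < n} ∧ i < t.1 ∧ ∃ q : ℕ → ℕ, N < q i ∧ (∀ j < i, q j = p j) ∧
            Node n H t.2 t.1 q := by
          intro N
          obtain ⟨a, ha⟩ := hb' N
          obtain ⟨s, S, q, u, g1, g2, g3, g4, g5⟩ := step k (fun w => f (Fin.cons a w))
            (fun u v h => hf _ _ (lexLt_cons_right h)) (fun u => hH _) (fun u => hp _)
            (fun u v h => hmono _ _ (lexLt_cons_right h))
            ⟨f (Fin.cons (a + 1) (fun _ => 0)) i, fun u => hmono _ _ (lexLt_cons (Nat.lt_succ_self a))⟩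
          exact ⟨(s, S), ⟨g5.lt.1, g2, g5.lt.2⟩, by omega, q, by rw [g4]; exact ha u, g3, g5⟩
        have hT : {t : ℕ × List ℕ | t.1 < n ∧ t.2.length = k ∧ ∀ r ∈ t.2, r < n}.Finite := by
          have h1 : {l : List ℕ | l.length = k ∧ ∀ r ∈ l, r < n}.Finite := by
            have h2 := List.finite_length_eq (Fin n) k
            refine (h2.image (List.map Fin.val)).subset ?_
            rintro l ⟨hl, hl'⟩
            refine ⟨l.attach.map (fun r => ⟨r.1, hl' r.1 r.2⟩), ?_, ?_⟩
            · show (l.attach.map _).length = k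
              rw [List.length_map, List.length_attach, hl]
            · rw [List.map_map]
              conv_rhs => rw [← List.attach_map_subtype_val l]
              rfl
          refine ((Set.finite_Iio n).prod h1).subset ?_
          rintro ⟨s, S⟩ ⟨h3, h4, h5⟩
          exact ⟨h3, h4, h5⟩
        have key : ∃ t : ℕ × List ℕ, t.2.length = k ∧ i < t.1 ∧ ∀ N, ∃ q : ℕ → ℕ, N < q i ∧
            (∀ j < i, q j = p j) ∧ Node n H t.2 t.1 q := by
          by_contra hcon
          push Not at hcon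
          have hcon' : ∀ t : ℕ × List ℕ, ∃ N, t.2.length = k → i < t.1 → ∀ q : ℕ → ℕ, N < q i →
              (∀ j < i, q j = p j) → ¬ Node n H t.2 t.1 q := by
            intro t
            by_cases h1 : t.2.length = k ∧ i < t.1
            · obtain ⟨N, hN⟩ := hcon t h1.1 h1.2
              exact ⟨N, fun _ _ => hN⟩
            · exact ⟨0, fun h2 h3 => absurd ⟨h2, h3⟩ h1⟩
          choose Nf hNf using hcon'
          obtain ⟨t, ht, hit, q, hq1, hq2, hq3⟩ := hall (hT.toFinset.sup Nf)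
          have hle : Nf t ≤ hT.toFinset.sup Nf := Finset.le_sup (f := Nf) (hT.mem_toFinset.2 ht)
          exact hNf t ht.2.1 hit q (lt_of_le_of_lt hle hq1) hq2 hq3
        obtain ⟨⟨s, S⟩, h1, h2, h3⟩ := key
        exact ⟨i, s :: S, p, le_rfl, by simpa using h1, fun _ _ => rfl, h2, h3⟩

end Pool.Agent.Helper18.EH
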