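import Pool.Agent.Helper18.EH.Tree

/-!
Negative partition relations for `ω ^ n` from relations on increasing tuples.
-/

namespace Pool.Agent.Helper18.EH

open Ordinal

/-- Partial sums, making a tuple increasing. -/
def psum (n : ℕ) (w : ℕ → ℕ) (i : ℕ) : ℕ :=
  if i < n then ∑ j ∈ Finset.range (i + 1), (w j + 1) else 0

theorem psum_inc (n : ℕ) (w : ℕ → ℕ) : Inc n (psum n w) := by
  intro i j hij hj
  rw [psum, psum, if_pos (hij.trans hj), if_pos hj]
  apply Finset.sum_lt_sum_of_subset (i := j)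
  · intro t ht
    rw [Finset.mem_range] at ht ⊢
    omega
  · simp
  · simp only [Finset.mem_range]; omega
  · omega
  · intro t _ _
    exact Nat.zero_le _

theorem psum_lex {n : ℕ} {u v : Fin n → ℕ} (h : toLex u < toLex v) :
    LexLt n (psum n (ext u)) (psum n (ext v)) := by
  obtain ⟨i, hi, hi'⟩ := h
  simp only [Pi.toLex_apply] at hi hi'
  have hext : ∀ j : ℕ, j < (i : ℕ) → ext u j = ext v j := by
    intro j hj
    have := hi ⟨j, hj.trans i.2⟩ hj
    simpa [ext, hj.trans i.2] using this
  refine ⟨i, i.2, fun j hj => ?_, ?_⟩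
  · rw [psum, psum, if_pos (hj.trans i.2), if_pos (hj.trans i.2)]
    apply Finset.sum_congr rfl
    intro t ht
    rw [hext t (by rw [Finset.mem_range] at ht; omega)]
  · rw [psum, psum, if_pos i.2, if_pos i.2, Finset.sum_range_succ, Finset.sum_range_succ,
      Finset.sum_congr rfl (g := fun t => ext v t + 1)
        (fun t ht => by rw [hext t (by rw [Finset.mem_range] at ht; omega)]), ext_apply, ext_apply]
    omega

/-- The increasing tuple attached to an element of `ω ^ n`. -/
noncomputable def tau (n : ℕ) (a : ((ω : Ordinal.{0}) ^ n).ToType) : ℕ → ℕ :=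
  psum n (ext (ofLex (lexIso n a)))

theorem tau_lex {n : ℕ} {a b : ((ω : Ordinal.{0}) ^ n).ToType} (h : a < b) :
    LexLt n (tau n a) (tau n b) :=
  psum_lex ((lexIso n).lt_iff_lt.2 h)

theorem LexLt.ne {n : ℕ} {x y : ℕ → ℕ} (h : LexLt n x y) : x ≠ y := by
  rintro rfl
  obtain ⟨i, _, _, h⟩ := h
  exact lt_irrefl _ h

theorem tau_injective (n : ℕ) : Function.Injective (tau n) := by
  intro a b h
  rcases lt_trichotomy a b with h' | h' | h'
  · exact absurd h (tau_lex h').ne
  · exact h'
  · exact absurd h.symm (tau_lex h').ne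

theorem not_arrow {n k M : ℕ} (R : (ℕ → ℕ) → (ℕ → ℕ) → Prop)
    (hhit : ∀ (H : Set (ℕ → ℕ)) (s : ℕ) (S : List ℕ) (q : ℕ → ℕ), (∀ x ∈ H, Inc n x) →
      S.length = k → Node n H S s q → ∃ x ∈ H, ∃ y ∈ H, x ≠ y ∧ R x y)
    (hcl : ∀ K : Finset (ℕ → ℕ), (∀ x ∈ K, Inc n x) →
      (∀ x ∈ K, ∀ y ∈ K, x ≠ y → LexLt n x y ∨ LexLt n y x) →
      (∀ x ∈ K, ∀ y ∈ K, x ≠ y → R x y ∨ R y x) → K.card ≤ M) :
    ¬ Arrow (ω ^ n) (ω ^ (k + 1)) (M + 1) := by
  classical
  intro hA
  rcases hA (fun a b => decide (R (tau n a) (tau n b) ∨ R (tau n b) (tau n a)))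
    (fun a b => by simp only [or_comm]) with ⟨H, hH, hc⟩ | ⟨K, hK, hc⟩
  · have e : (fun x y : Lex (Fin (k + 1) → ℕ) => x < y) ≃r (fun x y : H => x < y) :=
      Classical.choice (Ordinal.type_eq.1 ((type_lex (k + 1)).trans hH.symm))
    obtain ⟨s, S, q, _, h2, _, h4⟩ := exists_node n (tau n '' H) n 0 (by omega) k (fun _ => 0)
      (fun u => tau n (e (toLex u)).1)
      (fun u v h => tau_lex (e.map_rel_iff.2 h))
      (fun u => ⟨_, (e (toLex u)).2, rfl⟩) (fun u j hj => absurd hj (by omega))
    obtain ⟨x, ⟨a, ha, rfl⟩, y, ⟨b, hb, rfl⟩, hxy, hR⟩ := hhit _ s S q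
      (by rintro _ ⟨a, _, rfl⟩; exact psum_inc _ _) h2 h4
    have := hc a ha b hb (fun h => hxy (by rw [h]))
    rw [decide_eq_false_iff_not] at this
    exact this (Or.inl hR)
  · have hcard : (K.image (tau n)).card = M + 1 := by
      rw [← hK]; exact Finset.card_image_of_injective K (tau_injective n)
    have := hcl (K.image (tau n)) ?_ ?_ ?_
    · omega
    · intro x hx
      obtain ⟨a, _, rfl⟩ := Finset.mem_image.1 hx
      exact psum_inc _ _
    · intro x hx y hy hxy
      obtain ⟨a, _, rfl⟩ := Finset.mem_image.1 hx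
      obtain ⟨b, _, rfl⟩ := Finset.mem_image.1 hy
      rcases lt_trichotomy a b with h' | h' | h'
      · exact Or.inl (tau_lex h')
      · exact absurd (by rw [h']) hxy
      · exact Or.inr (tau_lex h')
    · intro x hx y hy hxy
      obtain ⟨a, ha, rfl⟩ := Finset.mem_image.1 hx
      obtain ⟨b, hb, rfl⟩ := Finset.mem_image.1 hy
      have := hc a ha b hb (fun h => hxy (by rw [h]))
      rwa [decide_eq_true_iff] at this

/-- A set of increasing tuples splits into at most two classes in each block of levels. -/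
theorem card_le_two_pow {n r : ℕ} (R : (ℕ → ℕ) → (ℕ → ℕ) → Prop)
    (hbase : ∀ x y i, Inc n x → Inc n y → i < n → (∀ j < i, x j = y j) → x i < y i →
      (R x y ∨ R y x) → r < n - i)
    (htri : ∀ x y z β, Inc n x → Inc n y → Inc n z → (R x y ∨ R y x) → (R y z ∨ R z y) →
      (R x z ∨ R z x) → (∃ t, 0 < t ∧ β + r * t = n) →
      (∃ i, β - r ≤ i ∧ i < β ∧ (∀ j < i, x j = y j) ∧ x i < y i) →
      (∃ i, β - r ≤ i ∧ i < β ∧ (∀ j < i, y j = z j) ∧ y i < z i) →
      (∃ i, β - r ≤ i ∧ i < β ∧ (∀ j < i, x j = z j) ∧ x i < z i) → False) :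
    ∀ t, ∀ K : Finset (ℕ → ℕ), (∀ x ∈ K, Inc n x) →
      (∀ x ∈ K, ∀ y ∈ K, x ≠ y → LexLt n x y ∨ LexLt n y x) →
      (∀ x ∈ K, ∀ y ∈ K, x ≠ y → R x y ∨ R y x) →
      (∀ x ∈ K, ∀ y ∈ K, ∀ j < n - r * (t + 1), x j = y j) → K.card ≤ 2 ^ t := by
  classical
  intro t
  induction t with
  | zero =>
    intro K h1 h2 h3 h4
    rw [pow_zero, Finset.card_le_one]
    intro x hx y hy
    by_contra hxy
    have main : ∀ x ∈ K, ∀ y ∈ K, LexLt n x y → (R x y ∨ R y x) → False := by
      rintro x hx y hy ⟨i, hi, hj, hlt⟩ hR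
      have h5 := hbase x y i (h1 x hx) (h1 y hy) hi hj hlt hR
      have h6 := h4 x hx y hy i (by omega)
      omega
    rcases h2 x hx y hy hxy with h | h
    · exact main x hx y hy h (h3 x hx y hy hxy)
    · exact main y hy x hx h (h3 y hy x hx (Ne.symm hxy))
  | succ t ih =>
    intro K h1 h2 h3 h4
    by_cases hn : n ≤ r * (t + 1)
    · refine (ih K h1 h2 h3 (fun x _ y _ j hj => absurd hj (by omega))).trans ?_
      exact Nat.pow_le_pow_right (by norm_num) (Nat.le_succ _)
    push Not at hn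
    set β := n - r * (t + 1) with hβ
    have hβn : β + r * (t + 1) = n := by omega
    have hβr : n - r * (t + 1 + 1) = β - r := by
      have : r * (t + 1 + 1) = r * (t + 1) + r := by ring
      omega
    rw [hβr] at h4
    rcases K.eq_empty_or_nonempty with rfl | ⟨x, hx⟩
    · simp
    let G : (ℕ → ℕ) → Finset (ℕ → ℕ) := fun x => K.filter (fun y => ∀ j < β, x j = y j)
    have hG : ∀ x, (G x).card ≤ 2 ^ t := by
      intro x
      apply ih (G x)
      · exact fun y hy => h1 y (Finset.mem_filter.1 hy).1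
      · exact fun y hy z hz => h2 y (Finset.mem_filter.1 hy).1 z (Finset.mem_filter.1 hz).1
      · exact fun y hy z hz => h3 y (Finset.mem_filter.1 hy).1 z (Finset.mem_filter.1 hz).1
      · intro y hy z hz j hj
        rw [← (Finset.mem_filter.1 hy).2 j hj, ← (Finset.mem_filter.1 hz).2 j hj]
    have hsub : ∃ y, K ⊆ G x ∪ G y := by
      by_cases hall : K ⊆ G x
      · exact ⟨x, hall.trans Finset.subset_union_left⟩
      · obtain ⟨y, hy, hyx⟩ := Finset.not_subset.1 hall
        refine ⟨y, fun z hz => ?_⟩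
        by_contra hcon
        rw [Finset.mem_union] at hcon
        push Not at hcon
        have d1 : ¬ ∀ j < β, x j = y j := fun h => hyx (Finset.mem_filter.2 ⟨hy, h⟩)
        have d2 : ¬ ∀ j < β, x j = z j := fun h => hcon.1 (Finset.mem_filter.2 ⟨hz, h⟩)
        have d3 : ¬ ∀ j < β, y j = z j := fun h => hcon.2 (Finset.mem_filter.2 ⟨hz, h⟩)
        have spl : ∀ a ∈ K, ∀ b ∈ K, (¬ ∀ j < β, a j = b j) →
            (∃ i, β - r ≤ i ∧ i < β ∧ (∀ j < i, a j = b j) ∧ a i < b i) ∨
            (∃ i, β - r ≤ i ∧ i < β ∧ (∀ j < i, b j = a j) ∧ b i < a i) := by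
          intro a ha b hb hab
          have hex : ∃ i, ¬ a i = b i := by
            by_contra h
            push Not at h
            exact hab (fun j _ => h j)
          have hlt : Nat.find hex < β := by
            by_contra h
            exact hab (fun j hj => by
              have := Nat.find_min hex (m := j) (by omega)
              simpa using this)
          have hge : β - r ≤ Nat.find hex := by
            by_contra h
            exact Nat.find_spec hex (h4 a ha b hb _ (by omega))
          have hmin : ∀ j < Nat.find hex, a j = b j := fun j hj => by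
            have := Nat.find_min hex hj
            simpa using this
          rcases lt_or_gt_of_ne (Nat.find_spec hex) with h | h
          · exact Or.inl ⟨_, hge, hlt, hmin, h⟩
          · exact Or.inr ⟨_, hge, hlt, fun j hj => (hmin j hj).symm, h⟩
        have ne1 : x ≠ y := fun h => d1 (by rw [h]; exact fun _ _ => rfl)
        have ne2 : x ≠ z := fun h => d2 (by rw [h]; exact fun _ _ => rfl)
        have ne3 : y ≠ z := fun h => d3 (by rw [h]; exact fun _ _ => rfl)
        have ht : ∃ t, 0 < t ∧ β + r * t = n := ⟨t + 1, Nat.succ_pos _, hβn⟩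
        have T : ∀ a ∈ K, ∀ b ∈ K, ∀ c ∈ K, a ≠ b → b ≠ c → a ≠ c →
            (∃ i, β - r ≤ i ∧ i < β ∧ (∀ j < i, a j = b j) ∧ a i < b i) →
            (∃ i, β - r ≤ i ∧ i < β ∧ (∀ j < i, b j = c j) ∧ b i < c i) →
            (∃ i, β - r ≤ i ∧ i < β ∧ (∀ j < i, a j = c j) ∧ a i < c i) → False := by
          intro a ha b hb c hc n1 n2 n3 s1 s2 s3
          exact htri a b c β (h1 a ha) (h1 b hb) (h1 c hc) (h3 a ha b hb n1) (h3 b hb c hc n2)
            (h3 a ha c hc n3) ht s1 s2 s3
        have cyc : ∀ a b c : ℕ → ℕ,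
            (∃ i, β - r ≤ i ∧ i < β ∧ (∀ j < i, a j = b j) ∧ a i < b i) →
            (∃ i, β - r ≤ i ∧ i < β ∧ (∀ j < i, b j = c j) ∧ b i < c i) →
            (∃ i, β - r ≤ i ∧ i < β ∧ (∀ j < i, c j = a j) ∧ c i < a i) → False := by
          rintro a b c ⟨i1, _, _, p1, q1⟩ ⟨i2, _, _, p2, q2⟩ ⟨i3, _, _, p3, q3⟩
          rcases lt_trichotomy i1 i2 with h | h | h
          · rcases lt_trichotomy i1 i3 with h' | h' | h'
            · have := p2 i1 h; have := p3 i1 h'; omega
            · subst h'; have := p2 i1 h; omega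
            · have := p1 i3 h'; have := p2 i3 (by omega); omega
          · subst h
            rcases lt_trichotomy i1 i3 with h' | h' | h'
            · have := p3 i1 h'; omega
            · subst h'; omega
            · have := p1 i3 h'; have := p2 i3 h'; omega
          · rcases lt_trichotomy i2 i3 with h' | h' | h'
            · have := p1 i2 h; have := p3 i2 h'; omega
            · subst h'; have := p1 i2 h; omega
            · have := p1 i3 (by omega); have := p2 i3 h'; omega
        rcases spl x hx y hy d1 with a1 | a1 <;> rcases spl y hy z hz d3 with a2 | a2 <;>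
          rcases spl x hx z hz d2 with a3 | a3
        · exact T x hx y hy z hz ne1 ne3 ne2 a1 a2 a3
        · exact cyc x y z a1 a2 a3
        · exact T x hx z hz y hy ne2 ne3.symm ne1 a3 a2 a1
        · exact T z hz x hx y hy ne2.symm ne1 ne3.symm a3 a1 a2
        · exact T y hy x hx z hz ne1.symm ne2 ne3 a1 a3 a2
        · exact T y hy z hz x hx ne3 ne2.symm ne1.symm a2 a3 a1
        · exact cyc x z y a3 a2 a1
        · exact T z hz y hy x hx ne3.symm ne1.symm ne2.symm a2 a1 a3
    obtain ⟨y, hy⟩ := hsub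
    calc K.card ≤ (G x ∪ G y).card := Finset.card_le_card hy
      _ ≤ (G x).card + (G y).card := Finset.card_union_le _ _
      _ ≤ 2 ^ t + 2 ^ t := Nat.add_le_add (hG x) (hG y)
      _ = 2 ^ (t + 1) := by rw [pow_succ]; ring

end Pool.Agent.Helper18.EH
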